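import Pool.Agent.H93.BD.Targets
import Pool.Agent.H93.BD.Targets2

/-!
# (BG) Bourgain-Guth inequality
-/

set_option autoImplicit false

open MeasureTheory
open scoped ENNReal NNReal

namespace Pool.Agent.H18.BD

open Pool.Agent.H93.BD

namespace BG

instance haarX (m : ℕ) : (volume : Measure (X m)).IsAddHaarMeasure :=
  Measure.prod.instIsAddHaarMeasure (volume : Measure (E m)) (volume : Measure ℝ)

/-- Jensen's inequality for finite measures -/
lemma jensen {α : Type} [MeasurableSpace α] (μ : Measure α) {f : α → ℝ≥0∞} (hf : Measurable f)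
    {q : ℝ} (hq : 1 ≤ q) : (∫⁻ a, f a ∂μ) ^ q ≤ μ Set.univ ^ (q - 1) * ∫⁻ a, f a ^ q ∂μ := by
  have h1 := eLpNorm'_le_eLpNorm'_mul_rpow_measure_univ (μ := μ) (f := f) zero_lt_one hq
    hf.aestronglyMeasurable
  unfold eLpNorm' at h1
  simp only [enorm_eq_self, ENNReal.rpow_one, div_one] at h1
  have hq0 : 0 < q := by linarith
  have h2 := ENNReal.rpow_le_rpow h1 hq0.le
  rw [ENNReal.mul_rpow_of_nonneg _ _ hq0.le, ← ENNReal.rpow_mul, ← ENNReal.rpow_mul,
    one_div, inv_mul_cancel₀ hq0.ne', ENNReal.rpow_one] at h2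
  have e : (1 - q⁻¹) * q = q - 1 := by field_simp
  rw [e, mul_comm] at h2
  exact h2

/-- Minkowski's inequality for finite sums -/
lemma mink {α ι : Type} [MeasurableSpace α] (μ : Measure α) (s : Finset ι) (u : ι → α → ℝ≥0∞)
    (hu : ∀ i ∈ s, Measurable (u i)) {q : ℝ} (hq : 1 ≤ q) :
    (∫⁻ a, (∑ i ∈ s, u i a) ^ q ∂μ) ^ (1 / q) ≤ ∑ i ∈ s, (∫⁻ a, (u i a) ^ q ∂μ) ^ (1 / q) := by
  classical
  have hq0 : 0 < q := by linarith
  induction s using Finset.induction_on with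
  | empty => simp [ENNReal.zero_rpow_of_pos hq0, hq0]
  | insert i s hi ih =>
    have h1 : Measurable (u i) := hu i (Finset.mem_insert_self i s)
    have h2 : ∀ j ∈ s, Measurable (u j) := fun j hj => hu j (Finset.mem_insert_of_mem hj)
    have h3 : Measurable (fun a => ∑ j ∈ s, u j a) := Finset.measurable_fun_sum s h2
    simp only [Finset.sum_insert hi]
    refine (ENNReal.lintegral_Lp_add_le h1.aemeasurable h3.aemeasurable hq).trans ?_
    exact add_le_add le_rfl (ih h2)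

lemma mink2 {α ι : Type} [MeasurableSpace α] (μ : Measure α) (s : Finset ι) (U : ι → α → ℝ≥0∞)
    (hU : ∀ i ∈ s, Measurable (U i)) {p : ℝ} (hp : 2 ≤ p) :
    ∫⁻ a, (∑ i ∈ s, U i a ^ (2 / p)) ^ (p / 2) ∂μ ≤ (∑ i ∈ s, (∫⁻ a, U i a ∂μ) ^ (2 / p)) ^ (p / 2) := by
  have hp0 : 0 < p := by linarith
  have h1 := mink μ s (fun i a => U i a ^ (2 / p)) (fun i hi => (hU i hi).pow_const _)
    (q := p / 2) (by linarith)
  have h2 := ENNReal.rpow_le_rpow h1 (by positivity : 0 ≤ p / 2)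
  rw [← ENNReal.rpow_mul, one_div, inv_mul_cancel₀ (by positivity), ENNReal.rpow_one] at h2
  refine h2.trans (le_of_eq ?_)
  congr 1
  refine Finset.sum_congr rfl fun i _ => ?_
  have e : (p / 2)⁻¹ = 2 / p := by rw [inv_div]
  rw [e]
  congr 1
  refine lintegral_congr fun a => ?_
  rw [← ENNReal.rpow_mul]
  have e2 : 2 / p * (p / 2) = 1 := by field_simp
  rw [e2, ENNReal.rpow_one]

lemma cv_eq {m : ℕ} (u k : X m → ℝ≥0∞) (x : X m) : cv u k x = ∫⁻ z, u z * k (x - z) := rfl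

/-- Jensen for convolutions -/
lemma cv_rpow {m : ℕ} {u k : X m → ℝ≥0∞} (hu : Measurable u) (hk : Measurable k) {q : ℝ}
    (hq : 1 ≤ q) {M : ℝ≥0∞} (hM : ∫⁻ x, k x ≤ M) (x : X m) :
    cv u k x ^ q ≤ M ^ (q - 1) * cv (fun z => u z ^ q) k x := by
  have hk' : Measurable fun z => k (x - z) := hk.comp (measurable_const.sub measurable_id)
  have e1 : ∀ v : X m → ℝ≥0∞, Measurable v →
      cv v k x = ∫⁻ z, v z ∂((volume : Measure (X m)).withDensity fun z => k (x - z)) := by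
    intro v hv
    rw [lintegral_withDensity_eq_lintegral_mul _ hk' hv, cv_eq]
    refine lintegral_congr fun z => ?_
    rw [Pi.mul_apply, mul_comm]
  have hmass : (volume : Measure (X m)).withDensity (fun z => k (x - z)) Set.univ ≤ M := by
    rw [withDensity_apply _ MeasurableSet.univ, Measure.restrict_univ]
    refine le_trans (le_of_eq ?_) hM
    exact lintegral_sub_left_eq_self k x
  rw [e1 u hu, e1 _ (hu.pow_const q)]
  refine (jensen _ hu hq).trans ?_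
  exact mul_le_mul' (ENNReal.rpow_le_rpow hmass (by linarith)) le_rfl

lemma measurable_gw {m N : ℕ} (r1 r2 : ℝ) (c : E m) : Measurable (gw m N r1 r2 c) := by
  unfold gw
  fun_prop

lemma measurable_wt {m N : ℕ} (R : ℝ) : Measurable (wt (m := m) N R) := by
  unfold wt
  fun_prop

lemma wt_eq {m N : ℕ} {R : ℝ} (hR : 0 < R) (x : X m) :
    wt N R x = ENNReal.ofReal (R ^ (m + 1)) * gw m N R R 0 x := by
  unfold wt gw
  rw [← ENNReal.ofReal_mul (by positivity)]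
  congr 1
  rw [smul_zero, add_zero, pow_succ]
  field_simp

lemma wt_neg {m N : ℕ} (R : ℝ) (x : X m) : wt N R (-x) = wt N R x := by
  unfold wt
  simp

/-- sub-additivity of the root -/
lemma root_add {a b : ℝ≥0∞} {p : ℝ} (hp : 1 ≤ p) :
    (a + b) ^ (1 / p) ≤ a ^ (1 / p) + b ^ (1 / p) :=
  ENNReal.rpow_add_le_add_rpow a b (by positivity) (by rw [div_le_one (by linarith)]; exact hp)

lemma root_sum {ι : Type} (s : Finset ι) (a : ι → ℝ≥0∞) {p : ℝ} (hp : 1 ≤ p) :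
    (∑ i ∈ s, a i) ^ (1 / p) ≤ ∑ i ∈ s, a i ^ (1 / p) := by
  classical
  have hp0 : 0 < 1 / p := by positivity
  induction s using Finset.induction_on with
  | empty => rw [Finset.sum_empty, Finset.sum_empty, ENNReal.zero_rpow_of_pos hp0]
  | insert i s hi ih =>
    rw [Finset.sum_insert hi, Finset.sum_insert hi]
    exact (root_add hp).trans (add_le_add le_rfl ih)

lemma root_rpow {a : ℝ≥0∞} {p : ℝ} (hp : 0 < p) : (a ^ p) ^ (1 / p) = a := by
  rw [← ENNReal.rpow_mul, mul_one_div_cancel hp.ne', ENNReal.rpow_one]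

lemma l2_rpow {m : ℕ} {ι : Type} (T : Finset ι) (p : ℝ) (F : ι → X m → ℂ) :
    l2 T (fun t => nrm p (F t)) ^ p = (∑ t ∈ T, (∫⁻ x, ‖F t x‖ₑ ^ p) ^ (2 / p)) ^ (p / 2) := by
  unfold l2 nrm
  rw [← ENNReal.rpow_mul]
  congr 1
  · refine Finset.sum_congr rfl fun t _ => ?_
    rw [← ENNReal.rpow_mul]
    congr 1
    ring
  · ring

/-- integrals over regions -/
lemma region {m : ℕ} (hCVA : T_CVA) {K : ℝ} (hK : 0 < K) {h : X m → ℝ≥0∞} (hh : Measurable h) :
    ∫⁻ x0 : X m, ∫⁻ x in {x : X m | ‖x.1 - x0.1‖ ≤ K ∧ |x.2 - x0.2| ≤ K}, h x =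
      ENNReal.ofReal (2 * (volume (Metric.ball (0 : E m) 1)).toReal * K ^ (m + 1)) *
        ∫⁻ x, h x := by
  let Q : Set (X m) := Metric.closedBall (0 : E m) K ×ˢ Metric.closedBall (0 : ℝ) K
  have hQ : MeasurableSet Q := measurableSet_closedBall.prod measurableSet_closedBall
  let k : X m → ℝ≥0∞ := Q.indicator 1
  have hk : Measurable k := measurable_one.indicator hQ
  have h1 : ∀ x0 : X m, ∫⁻ x in {x : X m | ‖x.1 - x0.1‖ ≤ K ∧ |x.2 - x0.2| ≤ K}, h x =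
      cv h k x0 := by
    intro x0
    have hset : MeasurableSet {x : X m | ‖x.1 - x0.1‖ ≤ K ∧ |x.2 - x0.2| ≤ K} := by
      have c1 : Continuous fun x : X m => ‖x.1 - x0.1‖ := by fun_prop
      have c2 : Continuous fun x : X m => |x.2 - x0.2| := by fun_prop
      exact ((isClosed_le c1 continuous_const).inter
        (isClosed_le c2 continuous_const)).measurableSet
    rw [← lintegral_indicator hset, cv_eq]
    refine lintegral_congr fun x => ?_
    by_cases hx : x ∈ {x : X m | ‖x.1 - x0.1‖ ≤ K ∧ |x.2 - x0.2| ≤ K}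
    · have hx' : x0 - x ∈ Q := by
        refine Set.mem_prod.2 ⟨?_, ?_⟩
        · rw [Metric.mem_closedBall, dist_zero_right, Prod.fst_sub, norm_sub_rev]
          exact hx.1
        · rw [Metric.mem_closedBall, dist_zero_right, Prod.snd_sub, norm_sub_rev]
          exact hx.2
      rw [Set.indicator_of_mem hx]
      simp only [k, Set.indicator_of_mem hx', Pi.one_apply, mul_one]
    · have hx' : x0 - x ∉ Q := by
        intro hc
        apply hx
        obtain ⟨h1, h2⟩ := Set.mem_prod.1 hc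
        rw [Metric.mem_closedBall, dist_zero_right, Prod.fst_sub, norm_sub_rev] at h1
        rw [Metric.mem_closedBall, dist_zero_right, Prod.snd_sub, norm_sub_rev] at h2
        exact ⟨h1, h2⟩
      rw [Set.indicator_of_notMem hx]
      simp only [k, Set.indicator_of_notMem hx', mul_zero]
  simp only [h1]
  rw [(hCVA m h k k hh hk hk).2.2.2, mul_comm]
  congr 1
  rw [lintegral_indicator_one hQ]
  have h2 : (volume : Measure (X m)) Q =
      volume (Metric.closedBall (0 : E m) K) * volume (Metric.closedBall (0 : ℝ) K) :=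
    Measure.prod_prod _ _
  rw [h2, Measure.addHaar_closedBall volume (0 : E m) hK.le, Real.volume_closedBall,
    finrank_euclideanSpace_fin]
  have h3 : volume (Metric.ball (0 : E m) 1) =
      ENNReal.ofReal (volume (Metric.ball (0 : E m) 1)).toReal :=
    (ENNReal.ofReal_toReal measure_ball_lt_top.ne).symm
  rw [h3, ← ENNReal.ofReal_mul (by positivity), ← ENNReal.ofReal_mul (by positivity)]
  congr 1
  rw [ENNReal.toReal_ofReal ENNReal.toReal_nonneg]
  ring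

lemma mem_tup {m b : ℕ} {Λ0 : ℝ} {τ : Fin (m + 1) → Fin m → ℤ} (h : τ ∈ tup m b Λ0) :
    ∀ i, τ i ∈ Bx m (2 * b) := by
  classical
  unfold tup at h
  have h2 := Finset.mem_of_mem_filter _ h
  exact fun i => Fintype.mem_piFinset.1 h2 i

/-- the first two terms -/
lemma term1 {m : ℕ} (hCVA : T_CVA) (hWM : T_WM) {N : ℕ} (hN : m + 2 ≤ N) : ∃ CW : ℝ, 0 < CW ∧
    ∀ (p : ℝ), 2 ≤ p → ∀ (ι : Type) (s : Finset ι) (f : ι → X m → ℂ), (∀ i ∈ s, Continuous (f i)) →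
    ∀ K : ℝ, 0 < K →
      Measurable (fun x0 => (∑ i ∈ s, (∫⁻ x, ‖f i x‖ₑ ^ p * wt N K (x - x0)) ^ (2 / p)) ^ (p / 2)) ∧
      ∫⁻ x0, (∑ i ∈ s, (∫⁻ x, ‖f i x‖ₑ ^ p * wt N K (x - x0)) ^ (2 / p)) ^ (p / 2) ≤
        ENNReal.ofReal (CW * K ^ (m + 1)) * l2 s (fun i => nrm p (f i)) ^ p := by
  obtain ⟨C, hC⟩ := hWM m N hN
  refine ⟨|C| + 1, by positivity, fun p hp ι s f hf K hK => ?_⟩
  have hp0 : 0 < p := by linarith
  have e1 : ∀ i x0, ∫⁻ x, ‖f i x‖ₑ ^ p * wt N K (x - x0) =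
      cv (fun z => ‖f i z‖ₑ ^ p) (wt N K) x0 := by
    intro i x0
    rw [cv_eq]
    refine lintegral_congr fun x => ?_
    rw [← neg_sub x0 x, wt_neg]
  simp only [e1]
  have hm : ∀ i ∈ s, Measurable (fun z => ‖f i z‖ₑ ^ p) := fun i hi =>
    ((hf i hi).measurable.enorm).pow_const p
  have hw : Measurable (wt (m := m) N K) := measurable_wt K
  have hcv : ∀ i ∈ s, Measurable (cv (fun z => ‖f i z‖ₑ ^ p) (wt N K)) := fun i hi =>
    (hCVA m _ _ _ (hm i hi) hw hw).2.2.1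
  refine ⟨?_, ?_⟩
  · exact (Finset.measurable_fun_sum s fun i hi => (hcv i hi).pow_const _).pow_const _
  · refine (mink2 volume s _ hcv hp).trans ?_
    have hW : ∫⁻ x : X m, wt N K x ≤ ENNReal.ofReal ((|C| + 1) * K ^ (m + 1)) := by
      simp only [wt_eq hK]
      rw [lintegral_const_mul' _ _ ENNReal.ofReal_ne_top]
      refine (mul_le_mul' le_rfl (hC K K hK hK 0)).trans ?_
      rw [← ENNReal.ofReal_mul (by positivity)]
      refine ENNReal.ofReal_le_ofReal ?_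
      have h1 : C ≤ |C| + 1 := (le_abs_self C).trans (by linarith)
      have h2 : 0 < K ^ (m + 1) := by positivity
      nlinarith
    set W : ℝ≥0∞ := ENNReal.ofReal ((|C| + 1) * K ^ (m + 1)) with hWdef
    have h3 : ∀ i ∈ s, (∫⁻ x, cv (fun z => ‖f i z‖ₑ ^ p) (wt N K) x) ^ (2 / p) ≤
        W ^ (2 / p) * (∫⁻ x, ‖f i x‖ₑ ^ p) ^ (2 / p) := by
      intro i hi
      rw [(hCVA m _ _ _ (hm i hi) hw hw).2.2.2, mul_comm,
        ← ENNReal.mul_rpow_of_nonneg _ _ (by positivity)]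
      exact ENNReal.rpow_le_rpow (mul_le_mul' hW le_rfl) (by positivity)
    refine (ENNReal.rpow_le_rpow (Finset.sum_le_sum h3) (by positivity)).trans ?_
    rw [← Finset.mul_sum, ENNReal.mul_rpow_of_nonneg _ _ (by positivity), ← ENNReal.rpow_mul]
    have e2 : 2 / p * (p / 2) = 1 := by field_simp
    rw [e2, ENNReal.rpow_one, l2_rpow]

lemma term2 {m : ℕ} (hCVA : T_CVA) (hWM : T_WM) : ∃ CM : ℝ, 0 < CM ∧
    ∀ (p : ℝ), 2 ≤ p → ∀ (ι : Type) (s : Finset ι) (f : ι → X m → ℂ), (∀ i ∈ s, Continuous (f i)) →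
    ∀ K : ℝ, 0 < K →
      (∀ i ∈ s, Measurable (cv (fun z => ‖f i z‖ₑ ^ (2 : ℝ)) (kw m K))) ∧
      ∫⁻ x0, (∑ i ∈ s, cv (fun z => ‖f i z‖ₑ ^ (2 : ℝ)) (kw m K) x0) ^ (p / 2) ≤
        ENNReal.ofReal CM ^ (p / 2) * l2 s (fun i => nrm p (f i)) ^ p := by
  obtain ⟨C, hC⟩ := hWM m (m + 2) le_rfl
  refine ⟨|C| + 1, by positivity, fun p hp ι s f hf K hK => ?_⟩
  have hp0 : 0 < p := by linarith
  have hk : Measurable (kw m K) := measurable_gw K K 0
  have hm : ∀ i ∈ s, Measurable (fun z => ‖f i z‖ₑ ^ (2 : ℝ)) := fun i hi =>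
    ((hf i hi).measurable.enorm).pow_const _
  have hm2 : ∀ i ∈ s, Measurable (fun z => (‖f i z‖ₑ ^ (2 : ℝ)) ^ (p / 2)) := fun i hi =>
    (hm i hi).pow_const _
  have hcv : ∀ i ∈ s, Measurable (cv (fun z => ‖f i z‖ₑ ^ (2 : ℝ)) (kw m K)) := fun i hi =>
    (hCVA m _ _ _ (hm i hi) hk hk).2.2.1
  refine ⟨hcv, ?_⟩
  set M : ℝ≥0∞ := ENNReal.ofReal (|C| + 1) with hM
  have hM0 : M ≠ 0 := by
    rw [hM]
    exact (ENNReal.ofReal_pos.2 (by positivity)).ne'
  have hMt : M ≠ ∞ := ENNReal.ofReal_ne_top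
  have hmass : ∫⁻ x : X m, kw m K x ≤ M :=
    (hC K K hK hK 0).trans (ENNReal.ofReal_le_ofReal ((le_abs_self C).trans (by linarith)))
  have e1 : ∀ x0, (∑ i ∈ s, cv (fun z => ‖f i z‖ₑ ^ (2 : ℝ)) (kw m K) x0) ^ (p / 2) =
      (∑ i ∈ s, (cv (fun z => ‖f i z‖ₑ ^ (2 : ℝ)) (kw m K) x0 ^ (p / 2)) ^ (2 / p)) ^ (p / 2) := by
    intro x0
    congr 1
    refine Finset.sum_congr rfl fun i _ => ?_
    rw [← ENNReal.rpow_mul]
    have e2 : p / 2 * (2 / p) = 1 := by field_simp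
    rw [e2, ENNReal.rpow_one]
  simp only [e1]
  refine (mink2 volume s _ (fun i hi => (hcv i hi).pow_const _) hp).trans ?_
  have h3 : ∀ i ∈ s, (∫⁻ x, cv (fun z => ‖f i z‖ₑ ^ (2 : ℝ)) (kw m K) x ^ (p / 2)) ^ (2 / p) ≤
      (M ^ (p / 2)) ^ (2 / p) * (∫⁻ x, ‖f i x‖ₑ ^ p) ^ (2 / p) := by
    intro i hi
    rw [← ENNReal.mul_rpow_of_nonneg _ _ (by positivity)]
    refine ENNReal.rpow_le_rpow ?_ (by positivity)
    have h4 : ∀ x, cv (fun z => ‖f i z‖ₑ ^ (2 : ℝ)) (kw m K) x ^ (p / 2) ≤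
        M ^ (p / 2 - 1) * cv (fun z => (‖f i z‖ₑ ^ (2 : ℝ)) ^ (p / 2)) (kw m K) x := fun x =>
      cv_rpow (hm i hi) hk (by linarith) hmass x
    refine (lintegral_mono h4).trans ?_
    rw [lintegral_const_mul' _ _ (ENNReal.rpow_ne_top_of_nonneg (by linarith) hMt),
      (hCVA m _ _ _ (hm2 i hi) hk hk).2.2.2]
    have e3 : ∀ x, (‖f i x‖ₑ ^ (2 : ℝ)) ^ (p / 2) = ‖f i x‖ₑ ^ p := by
      intro x
      rw [← ENNReal.rpow_mul]
      congr 1
      ring
    simp only [e3]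
    have e4 : M ^ (p / 2) = M ^ (p / 2 - 1) * M := by
      conv_rhs => rw [← ENNReal.rpow_one M]
      rw [← ENNReal.rpow_mul, one_mul, ← ENNReal.rpow_add _ _ hM0 hMt]
      congr 1
      ring
    rw [e4, mul_comm (∫⁻ x, ‖f i x‖ₑ ^ p), ← mul_assoc]
    exact mul_le_mul' (mul_le_mul' le_rfl hmass) le_rfl
  refine (ENNReal.rpow_le_rpow (Finset.sum_le_sum h3) (by positivity)).trans ?_
  rw [← Finset.mul_sum, ENNReal.mul_rpow_of_nonneg _ _ (by positivity), ← ENNReal.rpow_mul]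
  have e2 : 2 / p * (p / 2) = 1 := by field_simp
  rw [e2, ENNReal.rpow_one, l2_rpow]

end BG

open BG in
theorem pf_BG (hBGL : T_BGL) (hCAP : T_CAP) (hWM : T_WM) (hCVA : T_CVA) (hFCT : T_FCT)
    (hSUB : T_SUB) : T_BG := by
  intro m
  obtain ⟨Λ0, hΛ0, hB⟩ := hBGL m
  refine ⟨Λ0, hΛ0, fun p hp2 hLD C0 hC0 ε hε => ?_⟩
  have hp : 0 < p := by linarith
  have hp1 : 1 ≤ p := by linarith
  obtain ⟨N, hN⟩ := exists_nat_ge (((m : ℝ) + 3) * (p / 2 + 1))
  have hN2 : (m + 1) + 2 ≤ N := by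
    have h1 : ((m : ℝ) + 3) ≤ N := by
      have h2 : ((m : ℝ) + 3) * 1 ≤ ((m : ℝ) + 3) * (p / 2 + 1) :=
        mul_le_mul_of_nonneg_left (by linarith) (by positivity)
      linarith
    have h3 : (((m + 1) + 2 : ℕ) : ℝ) ≤ N := by
      push_cast
      linarith
    exact_mod_cast h3
  obtain ⟨C, hC, hB2⟩ := hB p hp2 hLD ε hε (C0 + ((m + 1 : ℕ) : ℝ) + 1) N hN
  obtain ⟨CW, hCW, h1⟩ := term1 hCVA hWM (m := m + 1) hN2
  obtain ⟨CM, hCM, h2⟩ := term2 hCVA hWM (m := m + 1)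
  set v : ℝ := 2 * (volume (Metric.ball (0 : E (m + 1)) 1)).toReal with hv
  have hv0 : 0 < v := by
    rw [hv]
    have : 0 < (volume (Metric.ball (0 : E (m + 1)) 1)).toReal :=
      ENNReal.toReal_pos (Metric.measure_ball_pos volume _ one_pos).ne' measure_ball_lt_top.ne
    linarith
  refine ⟨C * (((CW / v) ^ (1 / p)) + (CM ^ (p / 2) / v) ^ (1 / p)), by positivity, fun b => ?_⟩
  obtain ⟨C2, hC2, hB3⟩ := hB2 b
  set K : ℝ := 4 ^ b with hK
  have hK0 : 0 < K := by positivity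
  refine ⟨(C2 / (v * K ^ (m + 2))) ^ (1 / p), by positivity, fun a hab g hg => ?_⟩
  choose! G hG1 hG2 using hCAP (m + 1) C0 hC0 a (2 * b) hab g hg
  have hpow : (1 : ℝ) / 2 ^ (2 * b) = 1 / 4 ^ b := by
    rw [pow_mul]; norm_num
  have hG1' : ∀ α ∈ Bx (m + 1) (2 * b),
      InCap (C0 + ((m + 1 : ℕ) : ℝ) + 1) (1 / 4 ^ b) (pt (2 * b) α) (G α) := by
    intro α hα
    rw [← hpow]
    exact hG1 α hα
  have hB4 := hB3 G hG1'
  obtain ⟨hs1, -, hs3, -, hs5, -⟩ := hSUB (m + 1) a (2 * b) b (by omega) hab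
  have hs3' : ∀ (v : (Fin (m + 1) → ℤ) → ℂ), ∑ κ ∈ Bx (m + 1) a, v κ =
      ∑ α ∈ Bx (m + 1) (2 * b), ∑ κ ∈ sub (m + 1) a (2 * b) α, v κ := hs3 ℂ
  have hcg : ∀ κ ∈ Bx (m + 1) a, Continuous (FI (g κ)) := fun κ hκ => (hFCT _ _ (hg κ hκ).int).1
  have hcG : ∀ α ∈ Bx (m + 1) (2 * b), Continuous (FI (G α)) := fun α hα =>
    (hFCT _ _ (hG1 α hα).int).1
  have hcf : ∀ β ∈ Bx (m + 1) b, Continuous (fF a b g β) := by
    intro β _
    unfold fF
    exact continuous_finsetSum _ fun κ hκ => hcg κ (Finset.mem_filter.1 hκ).1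
  have hF : ∀ x, ∑ α ∈ Bx (m + 1) (2 * b), FI (G α) x = ∑ κ ∈ Bx (m + 1) a, FI (g κ) x := by
    intro x
    rw [hs3']
    refine Finset.sum_congr rfl fun α hα => ?_
    rw [← hG2 α hα x]
    rfl
  have hβ : ∀ β x, ∑ α ∈ sub (m + 1) (2 * b) b β, FI (G α) x = fF a b g β x := by
    intro β x
    rw [hs1 g β x]
    refine Finset.sum_congr rfl fun α hα => ?_
    exact (hG2 α (Finset.mem_filter.1 hα).1 x).symm
  simp only [hF, hβ] at hB4
  set A : ℝ≥0∞ := ENNReal.ofReal (C * 2 ^ (ε * b)) with hA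
  have hAt : A ≠ ∞ := ENNReal.ofReal_ne_top
  have hApt : A ^ p ≠ ∞ := ENNReal.rpow_ne_top_of_nonneg hp.le hAt
  set F : X (m + 1) → ℂ := fun x => ∑ κ ∈ Bx (m + 1) a, FI (g κ) x with hFdef
  have hFc : Continuous F := continuous_finsetSum _ fun κ hκ => hcg κ hκ
  have hFm : Measurable (fun x => ‖F x‖ₑ ^ p) := hFc.measurable.enorm.pow_const p
  obtain ⟨hm1, hI1⟩ := h1 p hp2 _ (Bx (m + 1) b) (fF a b g) hcf K hK0
  obtain ⟨hm2, hI2⟩ := h2 p hp2 _ (Bx (m + 1) (2 * b)) (fun α => FI (G α)) hcG K hK0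
  -- the multilinear terms
  have hprod : ∀ τ ∈ tup (m + 1) b Λ0, Measurable (fun x0 => ∏ i : Fin (m + 2),
      (cv (fun z => ‖FI (G (τ i)) z‖ₑ ^ (2 : ℝ)) (kw (m + 1) K) x0) ^ (p / (2 * (m + 2)))) ∧
      ∫⁻ x0, ∏ i : Fin (m + 2),
        (cv (fun z => ‖FI (G (τ i)) z‖ₑ ^ (2 : ℝ)) (kw (m + 1) K) x0) ^ (p / (2 * (m + 2))) =
      AA (m + 1) p 2 (4 ^ b) (fun i => {τ i}) (fF a (2 * b) g) := by
    intro τ hτ
    have hτ' : ∀ i, τ i ∈ Bx (m + 1) (2 * b) := by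
      exact mem_tup hτ
    refine ⟨?_, ?_⟩
    · exact Finset.measurable_fun_prod _ fun i _ => (hm2 _ (hτ' i)).pow_const _
    · unfold AA
      refine lintegral_congr fun x0 => ?_
      refine Finset.prod_congr rfl fun i _ => ?_
      rw [Finset.sum_singleton]
      have e1 : (fun z => ‖FI (G (τ i)) z‖ₑ ^ (2 : ℝ)) =
          fun z => ‖fF a (2 * b) g (τ i) z‖ₑ ^ (2 : ℝ) := by
        funext z
        rw [hG2 _ (hτ' i) z]
      rw [e1, div_self (two_ne_zero), ENNReal.rpow_one]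
      congr 1
      push_cast
      ring_nf
  -- integrate
  have hint := lintegral_mono (μ := (volume : Measure (X (m + 1)))) hB4
  rw [region hCVA hK0 hFm] at hint
  set L1 : ℝ≥0∞ := l2 (Bx (m + 1) b) (fun i => nrm p (fF a b g i)) with hL1
  set L2 : ℝ≥0∞ := l2 (Bx (m + 1) (2 * b)) (fun i => nrm p (FI (G i))) with hL2
  have hL2' : l2 (Bx (m + 1) (2 * b)) (fun α => nrm p (fF a (2 * b) g α)) = L2 := by
    rw [hL2]
    unfold l2
    congr 1
    refine Finset.sum_congr rfl fun α hα => ?_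
    have e : fF a (2 * b) g α = FI (G α) := funext fun x => hG2 α hα x
    simp only [e]
  set S : ℝ≥0∞ := ∑ τ ∈ tup (m + 1) b Λ0,
    AA (m + 1) p 2 (4 ^ b) (fun i => {τ i}) (fF a (2 * b) g) with hS
  have hR : ENNReal.ofReal (v * K ^ (m + 2)) * ∫⁻ x, ‖F x‖ₑ ^ p ≤
      A ^ p * (ENNReal.ofReal (CW * K ^ (m + 2)) * L1 ^ p +
        ENNReal.ofReal (K ^ (m + 2)) * (ENNReal.ofReal CM ^ (p / 2) * L2 ^ p)) +
      ENNReal.ofReal C2 * S := by
    refine hint.trans ?_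
    rw [lintegral_add_left]
    · refine add_le_add ?_ ?_
      · rw [lintegral_const_mul' _ _ hApt]
        refine mul_le_mul' le_rfl ?_
        rw [lintegral_add_left hm1]
        refine add_le_add hI1 ?_
        rw [lintegral_const_mul' _ _ ENNReal.ofReal_ne_top]
        exact mul_le_mul' le_rfl hI2
      · rw [lintegral_const_mul' _ _ ENNReal.ofReal_ne_top]
        refine mul_le_mul' le_rfl (le_of_eq ?_)
        rw [lintegral_finsetSum _ fun τ hτ => (hprod τ hτ).1]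
        exact Finset.sum_congr rfl fun τ hτ => (hprod τ hτ).2
    · refine Measurable.const_mul (hm1.add (Measurable.const_mul ?_ _)) _
      exact (Finset.measurable_fun_sum _ fun α hα => hm2 α hα).pow_const _
  -- divide
  have hV0 : 0 < v * K ^ (m + 2) := by positivity
  have hI : ∫⁻ x, ‖F x‖ₑ ^ p ≤
      A ^ p * (ENNReal.ofReal (CW / v) * L1 ^ p + ENNReal.ofReal (CM ^ (p / 2) / v) * L2 ^ p) +
      ENNReal.ofReal (C2 / (v * K ^ (m + 2))) * S := by
    have e0 : ENNReal.ofReal ((v * K ^ (m + 2))⁻¹) * ENNReal.ofReal (v * K ^ (m + 2)) = 1 := by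
      rw [← ENNReal.ofReal_mul (by positivity), inv_mul_cancel₀ hV0.ne', ENNReal.ofReal_one]
    have e1 := mul_le_mul' (le_refl (ENNReal.ofReal ((v * K ^ (m + 2))⁻¹))) hR
    rw [← mul_assoc, e0, one_mul] at e1
    refine e1.trans (le_of_eq ?_)
    have e2 : ENNReal.ofReal (CW / v) =
        ENNReal.ofReal ((v * K ^ (m + 2))⁻¹) * ENNReal.ofReal (CW * K ^ (m + 2)) := by
      rw [← ENNReal.ofReal_mul (by positivity)]
      congr 1
      field_simp
    have e3 : ENNReal.ofReal (CM ^ (p / 2) / v) =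
        ENNReal.ofReal ((v * K ^ (m + 2))⁻¹) *
          (ENNReal.ofReal (K ^ (m + 2)) * ENNReal.ofReal CM ^ (p / 2)) := by
      rw [ENNReal.ofReal_rpow_of_pos hCM, ← ENNReal.ofReal_mul (by positivity),
        ← ENNReal.ofReal_mul (by positivity)]
      congr 1
      field_simp
    have e4 : ENNReal.ofReal (C2 / (v * K ^ (m + 2))) =
        ENNReal.ofReal ((v * K ^ (m + 2))⁻¹) * ENNReal.ofReal C2 := by
      rw [← ENNReal.ofReal_mul (by positivity)]
      congr 1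
      rw [div_eq_inv_mul]
    rw [e2, e3, e4]
    ring
  -- the root
  have hroot : nrm p F ≤ A * (ENNReal.ofReal ((CW / v) ^ (1 / p)) * L1 +
      ENNReal.ofReal ((CM ^ (p / 2) / v) ^ (1 / p)) * L2) +
      ENNReal.ofReal ((C2 / (v * K ^ (m + 2))) ^ (1 / p)) *
        ∑ τ ∈ tup (m + 1) b Λ0,
          (AA (m + 1) p 2 (4 ^ b) (fun i => {τ i}) (fF a (2 * b) g)) ^ (1 / p) := by
    have hp' : 0 ≤ 1 / p := by positivity
    have r1 : nrm p F ≤ (A ^ p * (ENNReal.ofReal (CW / v) * L1 ^ p +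
        ENNReal.ofReal (CM ^ (p / 2) / v) * L2 ^ p) +
        ENNReal.ofReal (C2 / (v * K ^ (m + 2))) * S) ^ (1 / p) :=
      ENNReal.rpow_le_rpow hI hp'
    refine r1.trans ((root_add hp1).trans (add_le_add ?_ ?_))
    · rw [ENNReal.mul_rpow_of_nonneg _ _ hp', root_rpow hp]
      refine mul_le_mul' le_rfl ((root_add hp1).trans (le_of_eq ?_))
      rw [ENNReal.mul_rpow_of_nonneg _ _ hp', ENNReal.mul_rpow_of_nonneg _ _ hp', root_rpow hp,
        root_rpow hp, ENNReal.ofReal_rpow_of_pos (by positivity),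
        ENNReal.ofReal_rpow_of_pos (by positivity)]
    · rw [ENNReal.mul_rpow_of_nonneg _ _ hp', ENNReal.ofReal_rpow_of_pos (by positivity)]
      exact mul_le_mul' le_rfl (root_sum _ _ hp1)
  refine hroot.trans (add_le_add ?_ le_rfl)
  rw [hL2']
  have hx1 : 0 ≤ (CW / v) ^ (1 / p) := by positivity
  have hx2 : 0 ≤ (CM ^ (p / 2) / v) ^ (1 / p) := by positivity
  have e5 : ENNReal.ofReal (C * ((CW / v) ^ (1 / p) + (CM ^ (p / 2) / v) ^ (1 / p)) *
      2 ^ (ε * b)) = A * (ENNReal.ofReal ((CW / v) ^ (1 / p)) +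
        ENNReal.ofReal ((CM ^ (p / 2) / v) ^ (1 / p))) := by
    rw [← ENNReal.ofReal_add hx1 hx2, hA, ← ENNReal.ofReal_mul (by positivity)]
    congr 1
    ring
  rw [e5, mul_assoc]
  refine mul_le_mul' le_rfl ?_
  rw [mul_add, add_mul, add_mul]
  refine add_le_add ?_ ?_
  · exact le_self_add
  · exact le_add_self

end Pool.Agent.H18.BD
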