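import Pool.Agent.H93.BD.Targets
import Pool.Agent.H93.BD.Targets2

/-!
# Products of Fourier integrals, scaled bumps
-/

set_option autoImplicit false

open MeasureTheory
open scoped ENNReal NNReal Convolution

namespace Pool.Agent.H18.BD

open Pool.Agent.H93.BD

namespace Conv

instance haarX (m : ℕ) : (volume : Measure (X m)).IsAddHaarMeasure :=
  Measure.prod.instIsAddHaarMeasure (volume : Measure (E m)) (volume : Measure ℝ)

lemma norm_ph {m : ℕ} (z x : X m) : ‖ph z x‖ = 1 := by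
  unfold ph
  exact Complex.norm_exp_ofReal_mul_I _

lemma ph_add {m : ℕ} (z z' x : X m) : ph (z + z') x = ph z x * ph z' x := by
  unfold ph
  rw [← Complex.exp_add, Prod.fst_add, Prod.snd_add, inner_add_left]
  congr 1
  push_cast
  ring

lemma continuous_ph {m : ℕ} (x : X m) : Continuous fun z : X m => ph z x := by
  unfold ph
  fun_prop

lemma integrable_mul_ph {m : ℕ} {g : X m → ℂ} (hg : Integrable g) (x : X m) :
    Integrable fun z => g z * ph z x := by
  refine hg.mul_bdd (c := 1) (continuous_ph x).aestronglyMeasurable ?_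
  exact Filter.Eventually.of_forall fun z => (norm_ph z x).le

/-- convolution -/
noncomputable def cn {m : ℕ} (g h : X m → ℂ) : X m → ℂ :=
  g ⋆[ContinuousLinearMap.mul ℝ ℂ, volume] h

lemma cn_apply {m : ℕ} (g h : X m → ℂ) (z : X m) : cn g h z = ∫ t, g t * h (z - t) := rfl

lemma cn_integrable {m : ℕ} {g h : X m → ℂ} (hg : Integrable g) (hh : Integrable h) :
    Integrable (cn g h) := hg.integrable_convolution _ hh

lemma FI_cn {m : ℕ} {g h : X m → ℂ} (hg : Integrable g) (hh : Integrable h) (x : X m) :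
    FI (cn g h) x = FI g x * FI h x := by
  have h1 : ∀ z, cn g h z * ph z x = cn (fun z => g z * ph z x) (fun z => h z * ph z x) z := by
    intro z
    rw [cn_apply, cn_apply, ← integral_mul_const]
    refine integral_congr_ae (Filter.Eventually.of_forall fun t => ?_)
    have h2 : ph z x = ph t x * ph (z - t) x := by
      rw [← ph_add, add_sub_cancel]
    simp only []
    rw [h2]
    ring
  have h3 := integral_convolution (ContinuousLinearMap.mul ℝ ℂ)
    (integrable_mul_ph hg x) (integrable_mul_ph hh x) (μ := volume) (ν := volume)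
  unfold FI
  simp only [h1]
  exact h3

lemma cn_ne {m : ℕ} {g h : X m → ℂ} {z : X m} (hz : cn g h z ≠ 0) :
    ∃ t, g t ≠ 0 ∧ h (z - t) ≠ 0 := by
  by_contra hc
  push Not at hc
  apply hz
  rw [cn_apply]
  rw [integral_eq_zero_of_ae]
  refine Filter.Eventually.of_forall fun t => ?_
  by_cases ht : g t = 0
  · simp [ht]
  · simp [hc t ht]

/-- Fourier transform on `E m` -/
noncomputable def et {m : ℕ} (h : E m → ℂ) (y : E m) : ℂ :=
  ∫ ξ, h ξ * Complex.exp (((inner ℝ ξ y : ℝ) : ℂ) * Complex.I)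

/-- Fourier transform on the line -/
noncomputable def er (h : ℝ → ℂ) (w : ℝ) : ℂ :=
  ∫ ξ, h ξ * Complex.exp (((ξ * w : ℝ) : ℂ) * Complex.I)

/-- scaled and translated bump on `E m` -/
noncomputable def sE {m : ℕ} (h : E m → ℂ) (R : ℝ) (y0 : E m) (ξ : E m) : ℂ :=
  ((R ^ m : ℝ) : ℂ) * (h (R • ξ) * Complex.exp (((-inner ℝ ξ y0 : ℝ) : ℂ) * Complex.I))

/-- scaled and translated bump on the line -/
noncomputable def sR (h : ℝ → ℂ) (R : ℝ) (w0 : ℝ) (b : ℝ) : ℂ :=
  (R : ℂ) * (h (R * b) * Complex.exp (((-(b * w0) : ℝ) : ℂ) * Complex.I))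

/-- the product -/
noncomputable def sX {m : ℕ} (h : E m → ℂ) (k : ℝ → ℂ) (R : ℝ) (x0 : X m) (z : X m) : ℂ :=
  sE h R x0.1 z.1 * sR k R x0.2 z.2

lemma sE_integrable {m : ℕ} {h : E m → ℂ} (hc : Continuous h) (hs : ∀ ξ, 1 < ‖ξ‖ → h ξ = 0)
    {R : ℝ} (hR : 0 < R) (y0 : E m) : Integrable (sE h R y0) := by
  have h1 : Continuous (sE h R y0) := by
    unfold sE
    fun_prop
  refine h1.integrable_of_hasCompactSupport ?_
  refine HasCompactSupport.intro (isCompact_closedBall (0 : E m) (1 / R)) fun ξ hξ => ?_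
  rw [Metric.mem_closedBall, dist_zero_right, not_le, div_lt_iff₀ hR] at hξ
  unfold sE
  rw [hs, zero_mul, mul_zero]
  rw [norm_smul, Real.norm_eq_abs, abs_of_pos hR]
  linarith

lemma sR_integrable {h : ℝ → ℂ} (hc : Continuous h) (hs : ∀ ξ, 1 < |ξ| → h ξ = 0)
    {R : ℝ} (hR : 0 < R) (w0 : ℝ) : Integrable (sR h R w0) := by
  have h1 : Continuous (sR h R w0) := by
    unfold sR
    fun_prop
  refine h1.integrable_of_hasCompactSupport ?_
  refine HasCompactSupport.intro (isCompact_closedBall (0 : ℝ) (1 / R)) fun ξ hξ => ?_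
  rw [Metric.mem_closedBall, dist_zero_right, not_le, div_lt_iff₀ hR] at hξ
  unfold sR
  rw [hs, zero_mul, mul_zero]
  rw [abs_mul, abs_of_pos hR]
  rw [Real.norm_eq_abs] at hξ
  linarith

lemma sX_integrable {m : ℕ} {h : E m → ℂ} {k : ℝ → ℂ} (hc : Continuous h)
    (hs : ∀ ξ, 1 < ‖ξ‖ → h ξ = 0) (kc : Continuous k) (ks : ∀ ξ, 1 < |ξ| → k ξ = 0)
    {R : ℝ} (hR : 0 < R) (x0 : X m) : Integrable (sX h k R x0) :=
  (sE_integrable hc hs hR x0.1).mul_prod (sR_integrable kc ks hR x0.2)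

lemma sX_ne {m : ℕ} {h : E m → ℂ} {k : ℝ → ℂ} (hs : ∀ ξ, 1 < ‖ξ‖ → h ξ = 0)
    (ks : ∀ ξ, 1 < |ξ| → k ξ = 0) {R : ℝ} (hR : 0 < R) (x0 : X m) {z : X m}
    (hz : sX h k R x0 z ≠ 0) : ‖z.1‖ ≤ 1 / R ∧ |z.2| ≤ 1 / R := by
  constructor
  · by_contra hc
    push Not at hc
    rw [div_lt_iff₀ hR] at hc
    apply hz
    unfold sX sE
    rw [hs (R • z.1) (by rw [norm_smul, Real.norm_eq_abs, abs_of_pos hR]; linarith)]
    simp
  · by_contra hc
    push Not at hc
    rw [div_lt_iff₀ hR] at hc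
    apply hz
    unfold sX sR
    rw [ks (R * z.2) (by rw [abs_mul, abs_of_pos hR]; linarith)]
    simp

lemma FI_sX {m : ℕ} (h : E m → ℂ) (k : ℝ → ℂ) {R : ℝ} (hR : 0 < R) (x0 x : X m) :
    FI (sX h k R x0) x = et h (R⁻¹ • (x.1 - x0.1)) * er k (R⁻¹ * (x.2 - x0.2)) := by
  have h1 : ∀ z : X m, sX h k R x0 z * ph z x =
      (((R ^ m : ℝ) : ℂ) * (h (R • z.1) *
        Complex.exp (((inner ℝ (R • z.1) (R⁻¹ • (x.1 - x0.1)) : ℝ) : ℂ) * Complex.I))) *
      ((R : ℂ) * (k (R * z.2) *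
        Complex.exp (((R * z.2 * (R⁻¹ * (x.2 - x0.2)) : ℝ) : ℂ) * Complex.I))) := by
    intro z
    unfold sX sE sR ph
    have e1 : inner ℝ (R • z.1) (R⁻¹ • (x.1 - x0.1)) = inner ℝ z.1 x.1 - inner ℝ z.1 x0.1 := by
      rw [real_inner_smul_left, real_inner_smul_right, inner_sub_right]
      field_simp
    have e2 : R * z.2 * (R⁻¹ * (x.2 - x0.2)) = z.2 * x.2 - z.2 * x0.2 := by
      field_simp
    rw [e1, e2]
    have e3 : Complex.exp (((inner ℝ z.1 x.1 - inner ℝ z.1 x0.1 : ℝ) : ℂ) * Complex.I) *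
        Complex.exp (((z.2 * x.2 - z.2 * x0.2 : ℝ) : ℂ) * Complex.I) =
        Complex.exp (((-inner ℝ z.1 x0.1 : ℝ) : ℂ) * Complex.I) *
        Complex.exp (((-(z.2 * x0.2) : ℝ) : ℂ) * Complex.I) *
        Complex.exp (((inner ℝ z.1 x.1 + z.2 * x.2 : ℝ) : ℂ) * Complex.I) := by
      rw [← Complex.exp_add, ← Complex.exp_add, ← Complex.exp_add]
      congr 1
      push_cast
      ring
    linear_combination (-(((R ^ m : ℝ) : ℂ) * h (R • z.1) * (R : ℂ) * k (R * z.2))) * e3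
  unfold FI
  simp only [h1]
  have h2 := integral_prod_mul (μ := (volume : Measure (E m))) (ν := (volume : Measure ℝ))
    (fun ξ : E m => ((R ^ m : ℝ) : ℂ) * (h (R • ξ) *
        Complex.exp (((inner ℝ (R • ξ) (R⁻¹ • (x.1 - x0.1)) : ℝ) : ℂ) * Complex.I)))
    (fun b : ℝ => (R : ℂ) * (k (R * b) *
        Complex.exp (((R * b * (R⁻¹ * (x.2 - x0.2)) : ℝ) : ℂ) * Complex.I)))
  refine h2.trans ?_
  congr 1
  · rw [integral_const_mul]
    have h3 := Measure.integral_comp_smul (volume : Measure (E m)) (fun ξ : E m => h ξ *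
        Complex.exp (((inner ℝ ξ (R⁻¹ • (x.1 - x0.1)) : ℝ) : ℂ) * Complex.I)) R
    rw [h3, finrank_euclideanSpace_fin]
    have hRm : 0 < R ^ m := pow_pos hR m
    rw [abs_of_pos (inv_pos.2 hRm), ← Complex.coe_smul, smul_eq_mul, ← mul_assoc,
      ← Complex.ofReal_mul, mul_inv_cancel₀ hRm.ne', Complex.ofReal_one, one_mul]
    rfl
  · rw [integral_const_mul]
    have h3 := Measure.integral_comp_smul (volume : Measure ℝ) (fun ξ : ℝ => k ξ *
        Complex.exp (((ξ * (R⁻¹ * (x.2 - x0.2)) : ℝ) : ℂ) * Complex.I)) R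
    simp only [smul_eq_mul] at h3
    rw [h3, Module.finrank_self, pow_one]
    rw [abs_of_pos (inv_pos.2 hR), ← Complex.coe_smul, smul_eq_mul, ← mul_assoc,
      ← Complex.ofReal_mul, mul_inv_cancel₀ hR.ne', Complex.ofReal_one, one_mul]
    rfl

end Conv

end Pool.Agent.H18.BD
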