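import Pool.Agent.H93.BD.Targets2

/-!
# (DIC) transversal points or a hyperplane
-/

set_option autoImplicit false

open MeasureTheory
open scoped ENNReal NNReal

namespace Pool.Agent.H18.BD

open Pool.Agent.H93.BD

namespace DIC

/-- lift of a point -/
noncomputable def hat {m : ℕ} (s : E m) : X m := (s, 1)

/-- a linear form on `X m` -/
lemma form {m : ℕ} (l : X m →ₗ[ℝ] ℝ) : ∃ (g : E m) (t : ℝ), ∀ v : X m, l v = inner ℝ g v.1 + t * v.2 := by
  let f : E m →ₗ[ℝ] ℝ := l.comp (LinearMap.inl ℝ (E m) ℝ)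
  let f' : E m →L[ℝ] ℝ := LinearMap.toContinuousLinearMap f
  refine ⟨(InnerProductSpace.toDual ℝ (E m)).symm f', l (0, 1), fun v => ?_⟩
  rw [InnerProductSpace.toDual_symm_apply]
  have h1 : v = (LinearMap.inl ℝ (E m) ℝ) v.1 + v.2 • ((0 : E m), (1 : ℝ)) := by
    ext <;> simp
  have h2 : f' v.1 = l ((LinearMap.inl ℝ (E m) ℝ) v.1) := rfl
  rw [h2]
  conv_lhs => rw [h1]
  rw [map_add, map_smul, smul_eq_mul]
  ring

lemma finrank_X (m : ℕ) : Module.finrank ℝ (X m) = m + 1 := by
  simp [Module.finrank_prod]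

/-- all points lie on a hyperplane, or there is a maximal tuple with a dual basis -/
lemma main {m : ℕ} (S : Finset (E m)) (hS : S.Nonempty) :
    (∃ (g : E m) (t : ℝ), g ≠ 0 ∧ ∀ s ∈ S, inner ℝ g s + t = 0) ∨
    ∃ (b : Fin (m + 1) → E m) (g : Fin (m + 1) → E m) (t : Fin (m + 1) → ℝ),
      (∀ i, b i ∈ S) ∧ (∀ i j, inner ℝ (g i) (b j) + t i = if i = j then 1 else 0) ∧
      ∀ i, ∀ s ∈ S, |inner ℝ (g i) s + t i| ≤ 1 := by
  classical
  let B0 : Module.Basis (Fin (m + 1)) ℝ (X m) := Module.finBasisOfFinrankEq ℝ (X m) (finrank_X m)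
  let ω := B0.det
  have hne : (Fintype.piFinset (fun _ : Fin (m + 1) => S)).Nonempty := by
    obtain ⟨s, hs⟩ := hS
    exact ⟨fun _ => s, by simp [hs]⟩
  obtain ⟨b, hb, hmax⟩ := Finset.exists_max_image (Fintype.piFinset (fun _ : Fin (m + 1) => S))
    (fun b => |ω (fun i => hat (b i))|) hne
  have hb' : ∀ i, b i ∈ S := by simpa using hb
  by_cases h0 : ω (fun i => hat (b i)) = 0
  · left
    have hz : ∀ b' : Fin (m + 1) → E m, (∀ i, b' i ∈ S) → ω (fun i => hat (b' i)) = 0 := by
      intro b' hb'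
      have := hmax b' (by simpa using hb')
      simp only [h0, abs_zero] at this
      exact abs_eq_zero.1 (le_antisymm this (abs_nonneg _))
    have hlt : Submodule.span ℝ ((fun s : E m => hat s) '' (S : Set (E m))) < ⊤ := by
      refine lt_top_iff_ne_top.2 fun htop => ?_
      obtain ⟨f, hf1, hf2, hf3⟩ := Submodule.exists_fun_fin_finrank_span_eq ℝ
        ((fun s : E m => hat s) '' (S : Set (E m)))
      have hr : Module.finrank ℝ
          (Submodule.span ℝ ((fun s : E m => hat s) '' (S : Set (E m)))) = m + 1 := by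
        rw [htop, finrank_top, finrank_X]
      let f' : Fin (m + 1) → X m := fun i => f (finCongr hr.symm i)
      have hf' : LinearIndependent ℝ f' := hf3.comp _ (finCongr hr.symm).injective
      have hrange : Set.range f' = Set.range f := by
        have : f' = f ∘ (finCongr hr.symm) := rfl
        rw [this, Set.range_comp, (finCongr hr.symm).surjective.range_eq, Set.image_univ]
      have hsp : Submodule.span ℝ (Set.range f') = ⊤ := by rw [hrange, hf2, htop]
      have hu := (Module.Basis.is_basis_iff_det B0).1 ⟨hf', hsp⟩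
      have hch : ∀ i, ∃ s ∈ S, hat s = f' i := by
        intro i
        have := hf1 (finCongr hr.symm i)
        obtain ⟨s, hs, h⟩ := this
        exact ⟨s, by simpa using hs, h⟩
      choose b' hb1 hb2 using hch
      have h3 := hz b' hb1
      have h4 : (fun i => hat (b' i)) = f' := funext hb2
      rw [h4] at h3
      exact hu.ne_zero h3
    obtain ⟨l, hl0, hl⟩ := Submodule.exists_le_ker_of_lt_top _ hlt
    obtain ⟨g, t, hg⟩ := form l
    have hker : ∀ s ∈ S, inner ℝ g s + t = 0 := by
      intro s hs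
      have h1 : hat s ∈ LinearMap.ker l :=
        hl (Submodule.subset_span ⟨s, by simpa using hs, rfl⟩)
      have h2 := hg (hat s)
      rw [LinearMap.mem_ker.1 h1] at h2
      simp only [hat, mul_one] at h2
      exact h2.symm
    refine ⟨g, t, ?_, hker⟩
    rintro rfl
    obtain ⟨s, hs⟩ := hS
    have ht := hker s hs
    rw [inner_zero_left, zero_add] at ht
    apply hl0
    ext v
    · rw [LinearMap.comp_apply, hg]
      simp
    · rw [LinearMap.comp_apply, hg]
      simp [ht]
  · right
    let L : Fin (m + 1) → X m →ₗ[ℝ] ℝ := fun i =>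
      (ω (fun i => hat (b i)))⁻¹ • ω.toMultilinearMap.toLinearMap (fun i => hat (b i)) i
    choose g t hgt using fun i => form (L i)
    have hL : ∀ i s, inner ℝ (g i) s + t i = (ω (fun i => hat (b i)))⁻¹ *
        ω (Function.update (fun i => hat (b i)) i (hat s)) := by
      intro i s
      have h1 := hgt i (hat s)
      simp only [hat, mul_one] at h1
      rw [← h1]
      rfl
    refine ⟨b, g, t, hb', fun i j => ?_, fun i s hs => ?_⟩
    · rw [hL]
      split_ifs with hij
      · subst hij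
        rw [Function.update_eq_self_iff.2 rfl]
        exact inv_mul_cancel₀ h0
      · have : ω (Function.update (fun i => hat (b i)) i (hat (b j))) = 0 := by
          refine ω.map_eq_zero_of_eq _ (i := i) (j := j) ?_ hij
          rw [Function.update_self, Function.update_of_ne (Ne.symm hij)]
        rw [this, mul_zero]
    · rw [hL, abs_mul, abs_inv, inv_mul_le_iff₀ (abs_pos.2 h0), mul_one]
      have h1 : Function.update b i s ∈ Fintype.piFinset (fun _ : Fin (m + 1) => S) := by
        rw [Fintype.mem_piFinset]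
        intro j
        by_cases hj : j = i
        · subst hj; simpa using hs
        · rw [Function.update_of_ne hj]; exact hb' j
      have h2 := hmax _ h1
      have h3 : (fun j => hat (Function.update b i s j)) =
          Function.update (fun i => hat (b i)) i (hat s) := by
        funext j
        by_cases hj : j = i
        · subst hj; simp
        · simp [Function.update_of_ne hj]
      rwa [h3] at h2

/-- the hyperplane given by an affine function which is small on `S` -/
lemma plane {m : ℕ} (S : Finset (E m)) (hS : S.Nonempty) (hS1 : ∀ s ∈ S, ‖s‖ ≤ m + 1) (g : E m)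
    (t : ℝ) (hg : g ≠ 0) (δ K C : ℝ) (hδ : 0 ≤ δ) (hK : 1 ≤ K) (hgK : δ / ‖g‖ ≤ C / K)
    (h : ∀ s ∈ S, |inner ℝ g s + t| ≤ δ) :
    ∃ (ν : E m) (t0 : ℝ), ‖ν‖ = 1 ∧ |t0| ≤ m + 1 + C ∧
      ∀ s ∈ S, |inner ℝ ν s - t0| ≤ (m + 1 + C) / K := by
  have hg' : 0 < ‖g‖ := norm_pos_iff.2 hg
  have hK0 : 0 < K := by linarith
  have key : ∀ s ∈ S, |inner ℝ (‖g‖⁻¹ • g) s - (-(‖g‖⁻¹ * t))| ≤ C / K := by
    intro s hs
    have e : inner ℝ (‖g‖⁻¹ • g) s - (-(‖g‖⁻¹ * t)) = ‖g‖⁻¹ * (inner ℝ g s + t) := by
      rw [real_inner_smul_left]; ring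
    rw [e, abs_mul, abs_inv, abs_of_pos hg']
    refine le_trans ?_ hgK
    rw [div_eq_inv_mul]
    exact mul_le_mul_of_nonneg_left (h s hs) (inv_nonneg.2 hg'.le)
  have hn : ‖‖g‖⁻¹ • g‖ = 1 := by
    rw [norm_smul, norm_inv, norm_norm, inv_mul_cancel₀ hg'.ne']
  have hC0 : 0 ≤ C := by
    have h1 : 0 ≤ C / K := (div_nonneg hδ hg'.le).trans hgK
    by_contra hc
    push Not at hc
    have := div_neg_of_neg_of_pos hc hK0
    linarith
  refine ⟨‖g‖⁻¹ • g, -(‖g‖⁻¹ * t), hn, ?_, fun s hs => (key s hs).trans ?_⟩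
  · obtain ⟨s, hs⟩ := hS
    have h1 := key s hs
    have h2 : |inner ℝ (‖g‖⁻¹ • g) s| ≤ m + 1 := by
      refine (abs_real_inner_le_norm _ _).trans ?_
      rw [hn, one_mul]
      exact hS1 s hs
    have h3 : C / K ≤ C := div_le_self hC0 hK
    have h4 := abs_le.1 h1
    have h5 := abs_le.1 h2
    rw [abs_le]
    constructor <;> linarith [h4.1, h4.2, h5.1, h5.2]
  · refine div_le_div_of_nonneg_right ?_ hK0.le
    have : (0 : ℝ) ≤ m := Nat.cast_nonneg m
    linarith

lemma am_fst {m : ℕ} (b : Fin (m + 1) → E m) (s : Fin (m + 1) → ℝ) :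
    (Am b s).1 = (-2 : ℝ) • ∑ i, s i • b i := by
  unfold Am vv
  rw [Prod.fst_sum, Finset.smul_sum]
  refine Finset.sum_congr rfl fun i _ => ?_
  simp only [Prod.smul_fst]
  rw [smul_comm]

lemma am_snd {m : ℕ} (b : Fin (m + 1) → E m) (s : Fin (m + 1) → ℝ) :
    (Am b s).2 = ∑ i, s i := by
  unfold Am vv
  rw [Prod.snd_sum]
  refine Finset.sum_congr rfl fun i _ => ?_
  simp

/-- transversality from a dual basis -/
lemma trans {m : ℕ} (b : Fin (m + 1) → E m) (g : Fin (m + 1) → E m) (t : Fin (m + 1) → ℝ)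
    (h : ∀ i j, |inner ℝ (g i) (b j) + t i - (if i = j then 1 else 0)| ≤ 1 / (2 * (m + 1)))
    (Λ : ℝ) (hΛ : ∀ i, 2 * (‖g i‖ + |t i|) ≤ Λ) : Tr Λ b := by
  intro s i0
  obtain ⟨i, -, hi⟩ := Finset.exists_max_image Finset.univ (fun i : Fin (m + 1) => |s i|)
    ⟨i0, Finset.mem_univ _⟩
  have hi' : ∀ j, |s j| ≤ |s i| := fun j => hi j (Finset.mem_univ j)
  refine (hi' i0).trans ?_
  have h1 : inner ℝ (g i) ((-(1 / 2) : ℝ) • (Am b s).1) + t i * (Am b s).2 =
      s i + ∑ j, s j * (inner ℝ (g i) (b j) + t i - (if i = j then 1 else 0)) := by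
    rw [am_fst, am_snd, smul_smul, inner_smul_right, inner_sum]
    simp only [real_inner_smul_right, mul_sub, mul_add, Finset.sum_sub_distrib,
      Finset.sum_add_distrib]
    have e : ∑ x, s x * (if i = x then (1 : ℝ) else 0) = s i := by simp
    rw [e, Finset.mul_sum, Finset.mul_sum]
    have e2 : ∑ x, (-(1 / 2) : ℝ) * (-2) * (s x * inner ℝ (g i) (b x)) =
        ∑ x, s x * inner ℝ (g i) (b x) := Finset.sum_congr rfl fun x _ => by ring
    have e3 : ∑ x, t i * s x = ∑ x, s x * t i := Finset.sum_congr rfl fun x _ => by ring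
    rw [e3, e2]
    ring
  have h2 : |∑ j, s j * (inner ℝ (g i) (b j) + t i - (if i = j then 1 else 0))| ≤ |s i| / 2 := by
    refine (Finset.abs_sum_le_sum_abs _ _).trans ?_
    have h3 : ∀ j ∈ Finset.univ, |s j * (inner ℝ (g i) (b j) + t i - (if i = j then 1 else 0))| ≤
        |s i| * (1 / (2 * (m + 1))) := by
      intro j _
      rw [abs_mul]
      exact mul_le_mul (hi' j) (h i j) (abs_nonneg _) (abs_nonneg _)
    refine (Finset.sum_le_sum h3).trans ?_
    rw [Finset.sum_const, Finset.card_univ, Fintype.card_fin, nsmul_eq_mul]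
    push_cast
    have : (0 : ℝ) < m + 1 := by positivity
    apply le_of_eq
    field_simp
  have h3 : |inner ℝ (g i) ((-(1 / 2) : ℝ) • (Am b s).1) + t i * (Am b s).2| ≤
      (‖g i‖ + |t i|) * ‖Am b s‖ := by
    refine (abs_add_le _ _).trans ?_
    rw [abs_mul, add_mul]
    have n1 : ‖(Am b s).1‖ ≤ ‖Am b s‖ := norm_fst_le _
    have n2 : |(Am b s).2| ≤ ‖Am b s‖ := norm_snd_le (Am b s)
    refine add_le_add ?_ (mul_le_mul_of_nonneg_left n2 (abs_nonneg _))
    refine (abs_real_inner_le_norm _ _).trans ?_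
    refine mul_le_mul_of_nonneg_left ?_ (norm_nonneg _)
    rw [norm_smul, Real.norm_eq_abs, abs_neg, abs_of_pos (by norm_num : (0 : ℝ) < 1 / 2)]
    linarith [norm_nonneg (Am b s).1]
  rw [h1] at h3
  have h4 : |s i| ≤ |s i + ∑ j, s j * (inner ℝ (g i) (b j) + t i - (if i = j then 1 else 0))| +
      |∑ j, s j * (inner ℝ (g i) (b j) + t i - (if i = j then 1 else 0))| := by
    have := abs_sub (s i + ∑ j, s j * (inner ℝ (g i) (b j) + t i - (if i = j then 1 else 0)))
      (∑ j, s j * (inner ℝ (g i) (b j) + t i - (if i = j then 1 else 0)))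
    rwa [add_sub_cancel_right] at this
  have h5 : |s i| ≤ 2 * (‖g i‖ + |t i|) * ‖Am b s‖ := by linarith
  exact h5.trans (mul_le_mul_of_nonneg_right (hΛ i) (norm_nonneg _))

end DIC

open DIC in
theorem pf_DIC : T_DIC := by
  intro m hm r0 hr0
  have hm0 : (0 : ℝ) < m + 1 := by positivity
  have hm1 : (1 : ℝ) ≤ m := by exact_mod_cast hm
  set C' : ℝ := 2 * (m + 1) * (r0 + 1) with hC'
  have hC'0 : 0 < C' := by positivity
  have hC'2 : 2 * ((m : ℝ) + 1) ≤ C' := by
    have : 2 * ((m : ℝ) + 1) * 1 ≤ 2 * (m + 1) * (r0 + 1) :=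
      mul_le_mul_of_nonneg_left (by linarith) (by positivity)
    linarith
  refine ⟨m + 1 + C', 4, by positivity, by norm_num, fun K hK S hS => ?_⟩
  have hK0 : 0 < K := by linarith
  rcases S.eq_empty_or_nonempty with hE | hne
  · right
    subst hE
    refine ⟨EuclideanSpace.single ⟨0, hm⟩ 1, 0, by simp, by simp; positivity, by simp⟩
  rcases main S hne with ⟨g, t, hg, hgt⟩ | ⟨b, g, t, hb, hd, h1⟩
  · right
    refine plane S hne hS g t hg 0 K C' le_rfl hK ?_ fun s hs => by rw [hgt s hs]; simp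
    rw [zero_div]
    positivity
  · by_cases hbig : ∃ i, K / C' < ‖g i‖
    · obtain ⟨i, hi⟩ := hbig
      right
      have hg0 : 0 < ‖g i‖ := (div_pos hK0 hC'0).trans hi
      refine plane S hne hS (g i) (t i) (norm_pos_iff.1 hg0) 1 K C' zero_le_one hK ?_ (h1 i)
      rw [div_le_div_iff₀ hg0 hK0]
      rw [div_lt_iff₀ hC'0] at hi
      linarith
    · left
      push Not at hbig
      refine ⟨b, hb, fun b' hb' => ?_⟩
      refine trans b' g t (fun i j => ?_) _ fun i => ?_
      · have e : inner ℝ (g i) (b' j) + t i - (if i = j then 1 else 0) =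
            inner ℝ (g i) (b' j - b j) := by
          rw [inner_sub_right]
          linarith [hd i j]
        rw [e]
        refine (abs_real_inner_le_norm _ _).trans ?_
        refine (mul_le_mul (hbig i) (hb' j) (norm_nonneg _) (by positivity)).trans ?_
        have e2 : K / C' * (r0 / K) = r0 / C' := by field_simp
        rw [e2, hC', div_le_div_iff₀ (by positivity) (by positivity)]
        nlinarith
      · have ht : |t i| ≤ 1 + ‖g i‖ * (m + 1) := by
          have h2 := hd i i
          rw [if_pos rfl] at h2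
          have h3 : t i = 1 - inner ℝ (g i) (b i) := by linarith
          rw [h3]
          refine (abs_sub _ _).trans ?_
          rw [abs_one]
          refine add_le_add le_rfl ((abs_real_inner_le_norm _ _).trans ?_)
          exact mul_le_mul_of_nonneg_left (hS _ (hb i)) (norm_nonneg _)
        have h4 : ‖g i‖ * (m + 2) ≤ K := by
          refine (mul_le_mul_of_nonneg_right (hbig i) (by positivity)).trans ?_
          rw [div_mul_eq_mul_div, div_le_iff₀ hC'0]
          exact mul_le_mul_of_nonneg_left (by linarith) hK0.le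
        have h5 := norm_nonneg (g i)
        nlinarith

end Pool.Agent.H18.BD
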