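import Pool.Agent.H18.BD.Conv

/-!
# (GNB) global decoupling implies local weighted decoupling
-/

set_option autoImplicit false

open MeasureTheory
open scoped ENNReal NNReal Convolution

namespace Pool.Agent.H18.BD

open Pool.Agent.H93.BD

namespace GNB

open Conv

lemma nrm_rpow {m : ℕ} {p : ℝ} (hp : 0 < p) (F : X m → ℂ) :
    nrm p F ^ p = ∫⁻ x, ‖F x‖ₑ ^ p := by
  unfold nrm
  rw [← ENNReal.rpow_mul, one_div, inv_mul_cancel₀ hp.ne', ENNReal.rpow_one]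

lemma l2_rpow {m : ℕ} {ι : Type} (T : Finset ι) (p : ℝ) (F : ι → X m → ℂ) :
    l2 T (fun t => nrm p (F t)) ^ p = (∑ t ∈ T, (∫⁻ x, ‖F t x‖ₑ ^ p) ^ (2 / p)) ^ (p / 2) := by
  unfold l2 nrm
  rw [← ENNReal.rpow_mul]
  congr 1
  · refine Finset.sum_congr rfl fun t _ => ?_
    rw [← ENNReal.rpow_mul]
    congr 1
    ring
  · ring

/-- the caps after convolution -/
lemma cap {m : ℕ} {C0 R1 : ℝ} (a : ℕ) {c : E m} (hc : ‖c‖ ≤ R1) {g : X m → ℂ}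
    (hg : InCap C0 (1 / 2 ^ a) c g) {h : E m → ℂ} {k : ℝ → ℂ} (hc' : Continuous h)
    (hs : ∀ ξ, 1 < ‖ξ‖ → h ξ = 0) (kc : Continuous k) (ks : ∀ ξ, 1 < |ξ| → k ξ = 0) (x0 : X m) :
    InCap (3 * |C0| + 2 * |R1| + 3) (1 / 2 ^ a) c (cn g (sX h k (4 ^ a) x0)) := by
  have h4 : (0 : ℝ) < 4 ^ a := by positivity
  refine ⟨cn_integrable hg.int (sX_integrable hc' hs kc ks h4 x0), fun z hz => ?_⟩
  obtain ⟨t, ht, hzt⟩ := cn_ne hz
  obtain ⟨h1, h2⟩ := hg.supp t ht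
  obtain ⟨h3, h5⟩ := sX_ne hs ks h4 x0 hzt
  rw [Prod.fst_sub] at h3
  rw [Prod.snd_sub] at h5
  set d : ℝ := 1 / 2 ^ a with hd
  have hd0 : 0 < d := by positivity
  have hd1 : d ≤ 1 := by
    rw [hd, div_le_one (by positivity)]
    exact one_le_pow₀ (by norm_num)
  have hd2 : (1 : ℝ) / 4 ^ a = d ^ 2 := by
    rw [hd, div_pow, one_pow, ← pow_mul, mul_comm, pow_mul]
    norm_num
  rw [hd2] at h3 h5
  have hdd : d ^ 2 ≤ d := by nlinarith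
  have hC : C0 ≤ |C0| := le_abs_self C0
  have hC0 : 0 ≤ |C0| := abs_nonneg C0
  have hR : R1 ≤ |R1| := le_abs_self R1
  have hR0 : 0 ≤ |R1| := abs_nonneg R1
  have h1' : ‖t.1 - c‖ ≤ |C0| * d := h1.trans (mul_le_mul_of_nonneg_right hC hd0.le)
  have h2' : |t.2 - ‖t.1‖ ^ 2| ≤ |C0| * d ^ 2 :=
    h2.trans (mul_le_mul_of_nonneg_right hC (by positivity))
  have hz1 : ‖z.1 - c‖ ≤ |C0| * d + d ^ 2 := by
    have e : z.1 - c = (z.1 - t.1) + (t.1 - c) := by abel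
    rw [e]
    refine (norm_add_le _ _).trans ?_
    linarith
  have ht1 : ‖t.1‖ ≤ |R1| + |C0| := by
    have e : t.1 = (t.1 - c) + c := by abel
    rw [e]
    refine (norm_add_le _ _).trans ?_
    have : |C0| * d ≤ |C0| := by nlinarith
    linarith
  have hzn : ‖z.1‖ ≤ |R1| + |C0| + 1 := by
    have e : z.1 = (z.1 - t.1) + t.1 := by abel
    rw [e]
    refine (norm_add_le _ _).trans ?_
    have : d ^ 2 ≤ 1 := by nlinarith
    linarith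
  constructor
  · nlinarith
  · have h6 : |‖z.1‖ ^ 2 - ‖t.1‖ ^ 2| ≤ d ^ 2 * (2 * |R1| + 2 * |C0| + 1) := by
      have e : ‖z.1‖ ^ 2 - ‖t.1‖ ^ 2 = (‖z.1‖ - ‖t.1‖) * (‖z.1‖ + ‖t.1‖) := by ring
      rw [e, abs_mul]
      refine mul_le_mul ((abs_norm_sub_norm_le _ _).trans h3) ?_ (abs_nonneg _) (by positivity)
      rw [abs_of_nonneg (by positivity)]
      linarith
    have e : z.2 - ‖z.1‖ ^ 2 = (z.2 - t.2) + (t.2 - ‖t.1‖ ^ 2) - (‖z.1‖ ^ 2 - ‖t.1‖ ^ 2) := by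
      ring
    rw [e]
    have h7 := abs_sub ((z.2 - t.2) + (t.2 - ‖t.1‖ ^ 2)) (‖z.1‖ ^ 2 - ‖t.1‖ ^ 2)
    have h8 := abs_add_le (z.2 - t.2) (t.2 - ‖t.1‖ ^ 2)
    have hd3 : 0 ≤ d ^ 2 := by positivity
    nlinarith

/-- decay of the cut-off -/
lemma decay {m : ℕ} (N : ℕ) {h : E m → ℂ} {k : ℝ → ℂ} {CE CR : ℝ}
    (hE : ∀ y, ‖et h y‖ ≤ CE * ((1 + ‖y‖) ^ N)⁻¹) (hR : ∀ y, ‖er k y‖ ≤ CR * ((1 + |y|) ^ N)⁻¹)
    {p : ℝ} (hp : 1 ≤ p) {R : ℝ} (hR0 : 0 < R) (x0 x : X m) :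
    ‖et h (R⁻¹ • (x.1 - x0.1)) * er k (R⁻¹ * (x.2 - x0.2))‖ₑ ^ p ≤
      (ENNReal.ofReal (CE * CR)) ^ p * wt N R (x - x0) := by
  have hCE : 0 ≤ CE := by
    have h1 := (norm_nonneg _).trans (hE 0)
    simpa using h1
  set W : ℝ := ((1 + ‖(x - x0).1‖ / R) ^ N)⁻¹ * ((1 + |(x - x0).2| / R) ^ N)⁻¹ with hW
  have hW0 : 0 ≤ W := by positivity
  have hW1 : W ≤ 1 := by
    rw [hW]
    have a1 : ((1 + ‖(x - x0).1‖ / R) ^ N)⁻¹ ≤ 1 := by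
      refine inv_le_one_of_one_le₀ (one_le_pow₀ ?_)
      have : 0 ≤ ‖(x - x0).1‖ / R := by positivity
      linarith
    have a2 : ((1 + |(x - x0).2| / R) ^ N)⁻¹ ≤ 1 := by
      refine inv_le_one_of_one_le₀ (one_le_pow₀ ?_)
      have : 0 ≤ |(x - x0).2| / R := by positivity
      linarith
    have a3 : 0 ≤ ((1 + |(x - x0).2| / R) ^ N)⁻¹ := by positivity
    nlinarith
  have h1 : ‖et h (R⁻¹ • (x.1 - x0.1)) * er k (R⁻¹ * (x.2 - x0.2))‖ₑ ≤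
      ENNReal.ofReal (CE * CR) * ENNReal.ofReal W := by
    rw [← ofReal_norm, ← ENNReal.ofReal_mul' hW0]
    refine ENNReal.ofReal_le_ofReal ?_
    rw [norm_mul]
    have b1 := hE (R⁻¹ • (x.1 - x0.1))
    have b2 := hR (R⁻¹ * (x.2 - x0.2))
    refine (mul_le_mul b1 b2 (norm_nonneg _) (by positivity)).trans (le_of_eq ?_)
    have e1 : ‖R⁻¹ • (x.1 - x0.1)‖ = ‖(x - x0).1‖ / R := by
      rw [norm_smul, Real.norm_eq_abs, abs_of_pos (inv_pos.2 hR0), Prod.fst_sub, div_eq_inv_mul]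
    have e2 : |R⁻¹ * (x.2 - x0.2)| = |(x - x0).2| / R := by
      rw [abs_mul, abs_of_pos (inv_pos.2 hR0), Prod.snd_sub, div_eq_inv_mul]
    rw [e1, e2, hW]
    ring
  have hp0 : 0 ≤ p := by linarith
  refine (ENNReal.rpow_le_rpow h1 hp0).trans ?_
  rw [ENNReal.mul_rpow_of_nonneg _ _ hp0]
  refine mul_le_mul' le_rfl ?_
  have h3 : wt N R (x - x0) = ENNReal.ofReal W := rfl
  rw [h3, ENNReal.ofReal_rpow_of_nonneg hW0 hp0]
  refine ENNReal.ofReal_le_ofReal ?_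
  calc W ^ p ≤ W ^ (1 : ℝ) := Real.rpow_le_rpow_of_exponent_ge' hW0 hW1 zero_le_one hp
    _ = W := Real.rpow_one W

end GNB

open Conv GNB in
theorem pf_GNB (hETA : T_ETA) (hETR : T_ETR) : T_GNB := by
  intro m p hp2 hG ε hε C0 R1 N M
  have hp : 0 < p := by linarith
  obtain ⟨h, hh, hs, h1, hdec⟩ := hETA m
  obtain ⟨k, kk, ks, k1, kdec⟩ := hETR
  obtain ⟨CE, hCE⟩ := hdec N
  obtain ⟨CR, hCR⟩ := kdec N
  have hCE' : ∀ y, ‖et h y‖ ≤ CE * ((1 + ‖y‖) ^ N)⁻¹ := hCE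
  have hCR' : ∀ y, ‖er k y‖ ≤ CR * ((1 + |y|) ^ N)⁻¹ := hCR
  have hCE0 : 1 ≤ CE := by
    have a1 := (h1 0 (by simp)).trans (hCE 0)
    simpa using a1
  have hCR0 : 1 ≤ CR := by
    have a1 := (k1 0 (by simp)).trans (hCR 0)
    simpa using a1
  obtain ⟨C, hC, hmain⟩ := hG ε hε (3 * |C0| + 2 * |R1| + 3) R1 M
  refine ⟨C * (CE * CR), by positivity, fun a ι T c g hcT hgT hov x0 => ?_⟩
  have h4 : (0 : ℝ) < 4 ^ a := by positivity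
  have hGlob := hmain a ι T c (fun t => cn (g t) (sX h k (4 ^ a) x0)) hcT
    (fun t ht => cap a (hcT t ht) (hgT t ht) hh.continuous hs kk.continuous ks x0) hov
  have hI := sX_integrable (m := m) hh.continuous hs kk.continuous ks h4 x0
  have hFI : ∀ t ∈ T, ∀ x, FI (cn (g t) (sX h k (4 ^ a) x0)) x = FI (g t) x *
      (et h ((4 ^ a : ℝ)⁻¹ • (x.1 - x0.1)) * er k ((4 ^ a : ℝ)⁻¹ * (x.2 - x0.2))) := by
    intro t ht x
    rw [FI_cn (hgT t ht).int hI, FI_sX h k h4]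
  -- left side
  have hreg : MeasurableSet {x : X m | ‖x.1 - x0.1‖ ≤ 4 ^ a ∧ |x.2 - x0.2| ≤ 4 ^ a} := by
    have c1 : Continuous fun x : X m => ‖x.1 - x0.1‖ := by fun_prop
    have c2 : Continuous fun x : X m => |x.2 - x0.2| := by fun_prop
    exact ((isClosed_le c1 continuous_const).inter (isClosed_le c2 continuous_const)).measurableSet
  have hleft : ∫⁻ x in {x : X m | ‖x.1 - x0.1‖ ≤ 4 ^ a ∧ |x.2 - x0.2| ≤ 4 ^ a},
      ‖∑ t ∈ T, FI (g t) x‖ₑ ^ p ≤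
      ∫⁻ x, ‖∑ t ∈ T, FI (cn (g t) (sX h k (4 ^ a) x0)) x‖ₑ ^ p := by
    refine (setLIntegral_mono' hreg (g := fun x =>
      ‖∑ t ∈ T, FI (cn (g t) (sX h k (4 ^ a) x0)) x‖ₑ ^ p) fun x hx => ?_).trans
      (setLIntegral_le_lintegral _ _)
    have e : ∑ t ∈ T, FI (cn (g t) (sX h k (4 ^ a) x0)) x = (∑ t ∈ T, FI (g t) x) *
        (et h ((4 ^ a : ℝ)⁻¹ • (x.1 - x0.1)) * er k ((4 ^ a : ℝ)⁻¹ * (x.2 - x0.2))) := by
      rw [Finset.sum_mul]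
      exact Finset.sum_congr rfl fun t ht => hFI t ht x
    refine ENNReal.rpow_le_rpow ?_ hp.le
    rw [e, ← ofReal_norm, ← ofReal_norm]
    refine ENNReal.ofReal_le_ofReal ?_
    rw [norm_mul]
    have b1 : 1 ≤ ‖et h ((4 ^ a : ℝ)⁻¹ • (x.1 - x0.1))‖ := by
      refine h1 _ ?_
      rw [norm_smul, Real.norm_eq_abs, abs_of_pos (inv_pos.2 h4), inv_mul_le_iff₀ h4, mul_one]
      exact hx.1
    have b2 : 1 ≤ ‖er k ((4 ^ a : ℝ)⁻¹ * (x.2 - x0.2))‖ := by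
      refine k1 _ ?_
      rw [abs_mul, abs_of_pos (inv_pos.2 h4), inv_mul_le_iff₀ h4, mul_one]
      exact hx.2
    have b3 : 1 ≤ ‖et h ((4 ^ a : ℝ)⁻¹ • (x.1 - x0.1)) * er k ((4 ^ a : ℝ)⁻¹ * (x.2 - x0.2))‖ := by
      rw [norm_mul]
      nlinarith
    have b4 := norm_nonneg (∑ t ∈ T, FI (g t) x)
    nlinarith
  refine hleft.trans ?_
  have h5 := ENNReal.rpow_le_rpow hGlob hp.le
  rw [nrm_rpow hp, ENNReal.mul_rpow_of_nonneg _ _ hp.le, l2_rpow] at h5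
  refine h5.trans ?_
  -- right side
  set D : ℝ≥0∞ := (ENNReal.ofReal (CE * CR)) ^ p with hD
  have hDtop : D ≠ ∞ := ENNReal.rpow_ne_top_of_nonneg hp.le ENNReal.ofReal_ne_top
  have h6 : ∀ t ∈ T, ∫⁻ x, ‖FI (cn (g t) (sX h k (4 ^ a) x0)) x‖ₑ ^ p ≤
      D * ∫⁻ x, ‖FI (g t) x‖ₑ ^ p * wt N (4 ^ a) (x - x0) := by
    intro t ht
    rw [← lintegral_const_mul' _ _ hDtop]
    refine lintegral_mono fun x => ?_
    simp only []
    rw [hFI t ht x, enorm_mul, ENNReal.mul_rpow_of_nonneg _ _ hp.le]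
    refine (mul_le_mul' le_rfl (decay N hCE' hCR' (by linarith) h4 x0 x)).trans (le_of_eq ?_)
    rw [← hD]
    ring
  have h7 : (∑ t ∈ T, (∫⁻ x, ‖FI (cn (g t) (sX h k (4 ^ a) x0)) x‖ₑ ^ p) ^ (2 / p)) ^ (p / 2) ≤
      D * (∑ t ∈ T, (∫⁻ x, ‖FI (g t) x‖ₑ ^ p * wt N (4 ^ a) (x - x0)) ^ (2 / p)) ^ (p / 2) := by
    have e1 : D * (∑ t ∈ T,
        (∫⁻ x, ‖FI (g t) x‖ₑ ^ p * wt N (4 ^ a) (x - x0)) ^ (2 / p)) ^ (p / 2) =
        (∑ t ∈ T, (D * ∫⁻ x, ‖FI (g t) x‖ₑ ^ p * wt N (4 ^ a) (x - x0)) ^ (2 / p)) ^ (p / 2) := by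
      have e2 : ∀ I : ℝ≥0∞, (D * I) ^ (2 / p) = D ^ (2 / p) * I ^ (2 / p) := fun I =>
        ENNReal.mul_rpow_of_nonneg _ _ (by positivity)
      simp only [e2]
      rw [← Finset.mul_sum, ENNReal.mul_rpow_of_nonneg _ _ (by positivity), ← ENNReal.rpow_mul]
      have e3 : 2 / p * (p / 2) = 1 := by field_simp
      rw [e3, ENNReal.rpow_one]
    rw [e1]
    refine ENNReal.rpow_le_rpow (Finset.sum_le_sum fun t ht => ?_) (by positivity)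
    exact ENNReal.rpow_le_rpow (h6 t ht) (by positivity)
  refine (mul_le_mul' le_rfl h7).trans (le_of_eq ?_)
  rw [← mul_assoc]
  congr 1
  rw [hD, ← ENNReal.mul_rpow_of_nonneg _ _ hp.le, ← ENNReal.ofReal_mul (by positivity)]
  congr 2
  ring

end Pool.Agent.H18.BD
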