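import Pool.Agent.H18.BD.Conv

/-!
# (RES) parabolic rescaling
-/

set_option autoImplicit false

open MeasureTheory
open scoped ENNReal NNReal

namespace Pool.Agent.H18.BD

open Pool.Agent.H93.BD

namespace RES

open Conv

/-- affine changes of variables -/
lemma aff {m : ℕ} (A B : X m →ₗ[ℝ] X m) (hAB : ∀ z, A (B z) = z) (hBA : ∀ z, B (A z) = z)
    (s : X m) : ∃ J : ℝ, 0 < J ∧ (∀ g : X m → ℂ, ∫ z, g z = (J : ℂ) * ∫ z, g (s + A z)) ∧
      (∀ F : X m → ℝ≥0∞, ∫⁻ z, F z = ENNReal.ofReal J * ∫⁻ z, F (s + A z)) ∧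
      ∀ g : X m → ℂ, Integrable g → Integrable (fun z => g (s + A z)) := by
  let A' : X m →L[ℝ] X m := LinearMap.toContinuousLinearMap A
  have hA' : ∀ z, A' z = A z := fun z => rfl
  have hd : A'.det ≠ 0 := by
    intro h0
    have h1 : LinearMap.det A = 0 := h0
    have h2 := LinearMap.bot_lt_ker_of_det_eq_zero h1
    have h3 : LinearMap.ker A = ⊥ := by
      rw [LinearMap.ker_eq_bot]
      intro x y hxy
      rw [← hBA x, ← hBA y, hxy]
    rw [h3] at h2
    exact lt_irrefl _ h2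
  have hder : ∀ z ∈ (Set.univ : Set (X m)), HasFDerivWithinAt (fun z => s + A z) A' Set.univ z := by
    intro z _
    exact ((A'.hasFDerivAt (x := z)).const_add s).hasFDerivWithinAt
  have hinj : Set.InjOn (fun z => s + A z) (Set.univ : Set (X m)) := by
    intro x _ y _ hxy
    have h1 : A x = A y := add_left_cancel hxy
    rw [← hBA x, ← hBA y, h1]
  have himg : (fun z => s + A z) '' (Set.univ : Set (X m)) = Set.univ := by
    rw [Set.image_univ]
    refine Set.range_eq_univ.2 fun z => ⟨B (z - s), ?_⟩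
    simp [hAB]
  refine ⟨|A'.det|, abs_pos.2 hd, fun g => ?_, fun F => ?_, fun g hg => ?_⟩
  · have h1 := integral_image_eq_integral_abs_det_fderiv_smul volume MeasurableSet.univ hder hinj g
    rw [himg] at h1
    simp only [Measure.restrict_univ] at h1
    rw [h1, integral_smul, Complex.real_smul]
  · have h1 := lintegral_image_eq_lintegral_abs_det_fderiv_mul volume MeasurableSet.univ hder hinj F
    rw [himg] at h1
    simp only [Measure.restrict_univ] at h1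
    rw [h1, lintegral_const_mul' _ _ ENNReal.ofReal_ne_top]
  · have h1 := integrableOn_image_iff_integrableOn_abs_det_fderiv_smul volume MeasurableSet.univ
      hder hinj g
    rw [himg] at h1
    simp only [integrableOn_univ] at h1
    have h2 := (h1.1 hg).smul (|A'.det|⁻¹ : ℝ)
    refine h2.congr (Filter.Eventually.of_forall fun z => ?_)
    simp only [Pi.smul_apply]
    rw [smul_smul, inv_mul_cancel₀ (abs_ne_zero.2 hd), one_smul]

/-- the linear part of the change of variables in frequency -/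
noncomputable def Af {m : ℕ} (r : ℝ) (v : E m) : X m →ₗ[ℝ] X m where
  toFun z := (r • z.1, r ^ 2 * z.2 + 2 * r * inner ℝ v z.1)
  map_add' x y := by
    ext
    · simp
    · simp [inner_add_right]; ring
  map_smul' c x := by
    ext
    · simp [mul_left_comm]
    · simp [inner_smul_right]; ring

/-- its inverse -/
noncomputable def Bf {m : ℕ} (r : ℝ) (v : E m) : X m →ₗ[ℝ] X m where
  toFun z := (r⁻¹ • z.1, (r ^ 2)⁻¹ * (z.2 - 2 * inner ℝ v z.1))
  map_add' x y := by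
    ext
    · simp
    · simp [inner_add_right]; ring
  map_smul' c x := by
    ext
    · simp [mul_left_comm]
    · simp [inner_smul_right]; ring

/-- the linear change of variables in space -/
noncomputable def Lf {m : ℕ} (r : ℝ) (v : E m) : X m →ₗ[ℝ] X m where
  toFun x := (r • (x.1 + (2 * x.2) • v), r ^ 2 * x.2)
  map_add' x y := by
    refine Prod.ext ?_ ?_
    · simp only [Prod.fst_add, Prod.snd_add]
      rw [mul_add, add_smul, ← smul_add]
      congr 1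
      abel
    · simp only [Prod.snd_add]; ring
  map_smul' c x := by
    refine Prod.ext ?_ ?_
    · simp only [Prod.smul_fst, Prod.smul_snd, smul_eq_mul, RingHom.id_apply]
      rw [show 2 * (c * x.2) = c * (2 * x.2) by ring, mul_smul, ← smul_add, smul_comm]
    · simp only [Prod.smul_snd, smul_eq_mul, RingHom.id_apply]; ring

/-- its inverse -/
noncomputable def Mf {m : ℕ} (r : ℝ) (v : E m) : X m →ₗ[ℝ] X m where
  toFun x := (r⁻¹ • x.1 - (2 * ((r ^ 2)⁻¹ * x.2)) • v, (r ^ 2)⁻¹ * x.2)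
  map_add' x y := by
    refine Prod.ext ?_ ?_
    · simp only [Prod.fst_add, Prod.snd_add]
      rw [mul_add, mul_add, add_smul, smul_add]
      abel
    · simp only [Prod.snd_add]; ring
  map_smul' c x := by
    refine Prod.ext ?_ ?_
    · simp only [Prod.smul_fst, Prod.smul_snd, smul_eq_mul, RingHom.id_apply]
      rw [smul_sub, smul_smul c, smul_smul c, smul_smul, mul_comm c r⁻¹]
      congr 2
      ring_nf
    · simp only [Prod.smul_snd, smul_eq_mul, RingHom.id_apply]; ring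

lemma Af_Bf {m : ℕ} {r : ℝ} (hr : r ≠ 0) (v : E m) (z : X m) : Af r v (Bf r v z) = z := by
  refine Prod.ext ?_ ?_
  · show r • (r⁻¹ • z.1) = z.1
    rw [smul_smul, mul_inv_cancel₀ hr, one_smul]
  · show r ^ 2 * ((r ^ 2)⁻¹ * (z.2 - 2 * inner ℝ v z.1)) + 2 * r * inner ℝ v (r⁻¹ • z.1) = z.2
    rw [inner_smul_right]
    field_simp
    ring

lemma Bf_Af {m : ℕ} {r : ℝ} (hr : r ≠ 0) (v : E m) (z : X m) : Bf r v (Af r v z) = z := by
  refine Prod.ext ?_ ?_
  · show r⁻¹ • (r • z.1) = z.1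
    rw [smul_smul, inv_mul_cancel₀ hr, one_smul]
  · show (r ^ 2)⁻¹ * (r ^ 2 * z.2 + 2 * r * inner ℝ v z.1 - 2 * inner ℝ v (r • z.1)) = z.2
    rw [inner_smul_right]
    field_simp
    ring

lemma Lf_Mf {m : ℕ} {r : ℝ} (hr : r ≠ 0) (v : E m) (z : X m) : Lf r v (Mf r v z) = z := by
  refine Prod.ext ?_ ?_
  · show r • (r⁻¹ • z.1 - (2 * ((r ^ 2)⁻¹ * z.2)) • v + (2 * ((r ^ 2)⁻¹ * z.2)) • v) = z.1
    rw [sub_add_cancel, smul_smul, mul_inv_cancel₀ hr, one_smul]
  · show r ^ 2 * ((r ^ 2)⁻¹ * z.2) = z.2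
    field_simp

lemma Mf_Lf {m : ℕ} {r : ℝ} (hr : r ≠ 0) (v : E m) (z : X m) : Mf r v (Lf r v z) = z := by
  refine Prod.ext ?_ ?_
  · show r⁻¹ • (r • (z.1 + (2 * z.2) • v)) - (2 * ((r ^ 2)⁻¹ * (r ^ 2 * z.2))) • v = z.1
    rw [smul_smul, inv_mul_cancel₀ hr, one_smul, ← mul_assoc (r ^ 2)⁻¹,
      inv_mul_cancel₀ (pow_ne_zero 2 hr), one_mul, add_sub_cancel_right]
  · show (r ^ 2)⁻¹ * (r ^ 2 * z.2) = z.2
    field_simp

lemma ph_Af {m : ℕ} (r : ℝ) (v : E m) (z x : X m) : ph (Af r v z) x = ph z (Lf r v x) := by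
  unfold ph
  have h : inner ℝ (Af r v z).1 x.1 + (Af r v z).2 * x.2 =
      inner ℝ z.1 (Lf r v x).1 + z.2 * (Lf r v x).2 := by
    show inner ℝ (r • z.1) x.1 + (r ^ 2 * z.2 + 2 * r * inner ℝ v z.1) * x.2 =
      inner ℝ z.1 (r • (x.1 + (2 * x.2) • v)) + z.2 * (r ^ 2 * x.2)
    rw [real_inner_smul_left, real_inner_smul_right, inner_add_right, real_inner_smul_right,
      real_inner_comm z.1 v]
    ring
  rw [h]

/-- the change of variables -/
lemma change {m : ℕ} {r : ℝ} (hr : r ≠ 0) (v : E m) (s : X m) : ∃ J : ℝ, 0 < J ∧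
    (∀ (g : X m → ℂ) (x : X m),
      FI g x = (J : ℂ) * (ph s x * FI (fun z => g (s + Af r v z)) (Lf r v x))) ∧
    ∀ g : X m → ℂ, Integrable g → Integrable (fun z => g (s + Af r v z)) := by
  obtain ⟨J, hJ, h1, -, h3⟩ := aff (Af r v) (Bf r v) (Af_Bf hr v) (Bf_Af hr v) s
  refine ⟨J, hJ, fun g x => ?_, h3⟩
  unfold FI
  rw [h1, ← integral_const_mul (ph s x)]
  congr 1
  refine integral_congr_ae (Filter.Eventually.of_forall fun z => ?_)
  simp only [ph_add, ph_Af]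
  ring

/-- norms after the change of variables -/
lemma nrm_change {m : ℕ} {r : ℝ} (hr : r ≠ 0) (v : E m) (s : X m) {p : ℝ} (hp : 0 < p) (J : ℝ) :
    ∃ c : ℝ≥0∞, ∀ F : X m → ℂ,
      nrm p (fun x => (J : ℂ) * (ph s x * F (Lf r v x))) = c * nrm p F := by
  obtain ⟨J', -, -, h2, -⟩ := aff (Mf r v) (Lf r v) (Mf_Lf hr v) (Lf_Mf hr v) 0
  refine ⟨‖(J : ℂ)‖ₑ * ENNReal.ofReal J' ^ (1 / p), fun F => ?_⟩
  unfold nrm
  have h3 : ∀ x, ‖(J : ℂ) * (ph s x * F (Lf r v x))‖ₑ ^ p =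
      ‖(J : ℂ)‖ₑ ^ p * ‖F (Lf r v x)‖ₑ ^ p := by
    intro x
    have h4 : ‖ph s x‖ₑ = 1 := by
      rw [← ofReal_norm, norm_ph, ENNReal.ofReal_one]
    rw [enorm_mul, enorm_mul, h4, one_mul, ENNReal.mul_rpow_of_nonneg _ _ hp.le]
  simp only [h3]
  rw [lintegral_const_mul' _ _ (ENNReal.rpow_ne_top_of_nonneg hp.le enorm_ne_top), h2]
  simp only [zero_add, Lf_Mf hr]
  rw [ENNReal.mul_rpow_of_nonneg _ _ (by positivity), ENNReal.mul_rpow_of_nonneg _ _ (by positivity),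
    ← ENNReal.rpow_mul, mul_one_div_cancel hp.ne', ENNReal.rpow_one, mul_assoc]

/-- cells in a cell -/
lemma mem_sub {m n b : ℕ} {α : Fin m → ℤ} (hα : α ∈ Bx m b) (κ : Fin m → ℤ) :
    κ ∈ sub m (b + n) b α ↔ (fun i => κ i - 2 ^ n * α i) ∈ Bx m n := by
  unfold sub Bx at *
  simp only [Finset.mem_filter, Fintype.mem_piFinset, Finset.mem_Ico, Nat.add_sub_cancel_left] at *
  constructor
  · rintro ⟨h1, h2⟩ i
    have h3 := Int.emod_nonneg (κ i) (by positivity : (2 ^ n : ℤ) ≠ 0)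
    have h4 := Int.emod_lt_of_pos (κ i) (by positivity : (0 : ℤ) < 2 ^ n)
    have h5 := Int.emod_add_mul_ediv (κ i) (2 ^ n)
    rw [h2 i] at h5
    constructor <;> linarith
  · intro h
    have h2 : ∀ i, κ i / 2 ^ n = α i := by
      intro i
      have h3 : (2 ^ n : ℤ) ≠ 0 := by positivity
      have h4 : κ i = (κ i - 2 ^ n * α i) + 2 ^ n * α i := by ring
      rw [h4, Int.add_mul_ediv_left _ _ h3, Int.ediv_eq_zero_of_lt (h i).1 (h i).2, zero_add]
    refine ⟨fun i => ?_, h2⟩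
    have h5 := h i
    have h6 := hα i
    have h7 : (0 : ℤ) < 2 ^ n := by positivity
    rw [pow_add]
    constructor
    · nlinarith
    · nlinarith

/-- reindexing -/
lemma sum_sub {m n b : ℕ} {α : Fin m → ℤ} (hα : α ∈ Bx m b) {M : Type} [AddCommMonoid M]
    (v : (Fin m → ℤ) → M) :
    ∑ κ ∈ sub m (b + n) b α, v κ = ∑ l ∈ Bx m n, v (fun i => l i + 2 ^ n * α i) := by
  refine Finset.sum_nbij' (fun κ i => κ i - 2 ^ n * α i) (fun l i => l i + 2 ^ n * α i) ?_ ?_ ?_ ?_ ?_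
  · intro κ hκ
    exact (mem_sub hα κ).1 hκ
  · intro l hl
    rw [mem_sub hα]
    simpa using hl
  · intro κ _
    funext i
    simp
  · intro l _
    funext i
    simp
  · intro κ _
    simp

lemma pt_add {m n b : ℕ} (α l : Fin m → ℤ) :
    pt (b + n) (fun i => l i + 2 ^ n * α i) = pt b α + (1 / 2 ^ b : ℝ) • pt n l := by
  unfold pt
  ext i
  simp only [PiLp.add_apply, PiLp.smul_apply, smul_eq_mul]
  push_cast
  rw [pow_add]
  field_simp
  ring

/-- caps after the change of variables -/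
lemma cap {m : ℕ} {C0 : ℝ} {n b : ℕ} (α l : Fin m → ℤ) {g : X m → ℂ}
    (hg : InCap C0 (1 / 2 ^ (b + n)) (pt (b + n) (fun i => l i + 2 ^ n * α i)) g)
    (hint : Integrable (fun z => g ((pt b α, ‖pt b α‖ ^ 2) + Af (1 / 2 ^ b) (pt b α) z))) :
    InCap C0 (1 / 2 ^ n) (pt n l)
      (fun z => g ((pt b α, ‖pt b α‖ ^ 2) + Af (1 / 2 ^ b) (pt b α) z)) := by
  refine ⟨hint, fun z hz => ?_⟩
  obtain ⟨h1, h2⟩ := hg.supp _ hz
  set v := pt b α with hv
  set r : ℝ := 1 / 2 ^ b with hr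
  have hr0 : 0 < r := by positivity
  have hrn : (1 : ℝ) / 2 ^ (b + n) = r * (1 / 2 ^ n) := by
    rw [hr, pow_add]; field_simp
  have e1 : (((v, ‖v‖ ^ 2) : X m) + Af r v z).1 = v + r • z.1 := rfl
  have e2 : (((v, ‖v‖ ^ 2) : X m) + Af r v z).2 =
      ‖v‖ ^ 2 + (r ^ 2 * z.2 + 2 * r * inner ℝ v z.1) := rfl
  rw [e1, pt_add, ← hv, ← hr, hrn] at h1
  rw [e1, e2, hrn] at h2
  have e3 : v + r • z.1 - (v + r • pt n l) = r • (z.1 - pt n l) := by
    rw [smul_sub]; abel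
  rw [e3, norm_smul, Real.norm_eq_abs, abs_of_pos hr0] at h1
  have e4 : ‖v + r • z.1‖ ^ 2 = ‖v‖ ^ 2 + 2 * (r * inner ℝ v z.1) + r ^ 2 * ‖z.1‖ ^ 2 := by
    rw [norm_add_sq_real, real_inner_smul_right, norm_smul, Real.norm_eq_abs, mul_pow, sq_abs]
  have e5 : ‖v‖ ^ 2 + (r ^ 2 * z.2 + 2 * r * inner ℝ v z.1) - ‖v + r • z.1‖ ^ 2 =
      r ^ 2 * (z.2 - ‖z.1‖ ^ 2) := by
    rw [e4]; ring
  rw [e5, abs_mul, abs_of_pos (by positivity : (0 : ℝ) < r ^ 2)] at h2
  constructor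
  · have h3 : r * ‖z.1 - pt n l‖ ≤ r * (C0 * (1 / 2 ^ n)) := by linarith
    exact le_of_mul_le_mul_left h3 hr0
  · have h3 : r ^ 2 * |z.2 - ‖z.1‖ ^ 2| ≤ r ^ 2 * (C0 * (1 / 2 ^ n) ^ 2) := by
      refine h2.trans (le_of_eq ?_)
      ring
    exact le_of_mul_le_mul_left h3 (by positivity)

end RES

open Conv RES in
theorem pf_RES : T_RES := by
  intro m p C0 hp a b hba D hD g hg α hα
  obtain ⟨n, rfl⟩ : ∃ n, a = b + n := ⟨a - b, by omega⟩
  rw [Nat.add_sub_cancel_left] at hD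
  have hr : (1 / 2 ^ b : ℝ) ≠ 0 := by positivity
  set s : X m := (pt b α, ‖pt b α‖ ^ 2) with hs
  obtain ⟨J, hJ, hFI, hint⟩ := change hr (pt b α) s
  obtain ⟨c, hc⟩ := nrm_change hr (pt b α) s hp J
  set g' : (Fin m → ℤ) → X m → ℂ := fun l z =>
    g (fun i => l i + 2 ^ n * α i) (s + Af (1 / 2 ^ b) (pt b α) z) with hg'
  have hmem : ∀ l ∈ Bx m n, (fun i => l i + 2 ^ n * α i) ∈ Bx m (b + n) := by
    intro l hl
    have h1 : (fun i => l i + 2 ^ n * α i) ∈ sub m (b + n) b α := by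
      rw [mem_sub hα]
      simpa using hl
    exact (Finset.mem_filter.1 h1).1
  have hcls : Cls m C0 n g' := fun l hl =>
    cap α l (hg _ (hmem l hl)) (hint _ (hg _ (hmem l hl)).int)
  have h1 := hD g' hcls
  have h2 : fF (b + n) b g α = fun x => (J : ℂ) * (ph s x *
      (fun x => ∑ l ∈ Bx m n, FI (g' l) x) (Lf (1 / 2 ^ b) (pt b α) x)) := by
    funext x
    unfold fF
    rw [sum_sub hα]
    simp only []
    rw [Finset.mul_sum, Finset.mul_sum]
    exact Finset.sum_congr rfl fun l _ => hFI _ x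
  have h3 : l2 (sub m (b + n) b α) (fun κ => nrm p (FI (g κ))) =
      c * l2 (Bx m n) (fun l => nrm p (FI (g' l))) := by
    unfold l2
    rw [sum_sub hα]
    have h4 : ∀ l ∈ Bx m n, nrm p (FI (g (fun i => l i + 2 ^ n * α i))) ^ (2 : ℝ) =
        c ^ (2 : ℝ) * nrm p (FI (g' l)) ^ (2 : ℝ) := by
      intro l _
      rw [← ENNReal.mul_rpow_of_nonneg _ _ (by norm_num), ← hc]
      congr 2
      funext x
      exact hFI _ x
    rw [Finset.sum_congr rfl h4, ← Finset.mul_sum,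
      ENNReal.mul_rpow_of_nonneg _ _ (by norm_num), ← ENNReal.rpow_mul]
    norm_num
  have h5 : nrm p (fF (b + n) b g α) = c * nrm p (fun x => ∑ l ∈ Bx m n, FI (g' l) x) := by
    rw [h2]
    exact hc (fun x => ∑ l ∈ Bx m n, FI (g' l) x)
  rw [h5, h3, mul_left_comm]
  exact mul_le_mul' le_rfl h1

end Pool.Agent.H18.BD
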